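import Pool.Agent.Helper11.Gon.Basic

set_option autoImplicit false

/-!
# The five-term relation for an alternating form
-/

noncomputable section

open scoped Classical

namespace Helper11.Gon

universe u v w

/-- An alternating form on `F^*` with values in a rational vector space. -/
structure AF (F : Type u) [Field F] (Q : Type w) [AddCommGroup Q] [Module ℚ Q] where
  O : Additive Fˣ →+ Additive Fˣ →+ Q
  alt : ∀ v, O v v = 0

namespace AF

variable {F : Type u} [Field F] {Q : Type w} [AddCommGroup Q] [Module ℚ Q] (A : AF F Q)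

/-- The value on `x ∧ (1 - x)`. -/
def St (x : F) : Q := A.O (lg x) (lg (1 - x))

lemma swap (u v : Additive Fˣ) : A.O u v = - A.O v u := by
  have h := A.alt (u + v)
  have hu := A.alt u
  have hv := A.alt v
  simp only [map_add, AddMonoidHom.add_apply] at h
  linear_combination (norm := module) h - hu - hv

lemma neg1 (x : F) (v : Additive Fˣ) : A.O (lg (-x)) v = A.O (lg x) v :=
  hom_neg (A.O.flip v) x

lemma neg2 (u : Additive Fˣ) (x : F) : A.O u (lg (-x)) = A.O u (lg x) :=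
  hom_neg (A.O u) x

lemma sub1 (x y : F) (v : Additive Fˣ) : A.O (lg (x - y)) v = A.O (lg (y - x)) v := by
  rw [← neg_sub, A.neg1]

lemma sub2 (u : Additive Fˣ) (x y : F) : A.O u (lg (x - y)) = A.O u (lg (y - x)) := by
  rw [← neg_sub, A.neg2]

lemma St_inv (x : F) : A.St x⁻¹ = - A.St x := by
  by_cases h0 : x = 0
  · subst h0; simp [St]
  by_cases h1 : x = 1
  · subst h1; simp [St]
  have h2 : x - 1 ≠ 0 := sub_ne_zero.2 h1
  have e : 1 - x⁻¹ = (x - 1) / x := by field_simp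
  rw [St, St, e, lg_div h2 h0, lg_inv]
  simp only [map_neg, map_sub, AddMonoidHom.neg_apply, A.alt, A.sub2 _ x 1, neg_zero, sub_zero]

lemma five {x y : F} (hx : x ≠ 0) (hx1 : x ≠ 1) (hy : y ≠ 0) (hy1 : y ≠ 1) (hxy : x ≠ y) :
    A.St x - A.St y + A.St (y / x) - A.St ((1 - x⁻¹) / (1 - y⁻¹)) +
      A.St ((1 - x) / (1 - y)) = 0 := by
  have nx : 1 - x ≠ 0 := sub_ne_zero.2 (Ne.symm hx1)
  have ny : 1 - y ≠ 0 := sub_ne_zero.2 (Ne.symm hy1)
  have nz : x - y ≠ 0 := sub_ne_zero.2 hxy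
  have nx' : x - 1 ≠ 0 := sub_ne_zero.2 hx1
  have ny' : y - 1 ≠ 0 := sub_ne_zero.2 hy1
  have e1 : 1 - y / x = (x - y) / x := by field_simp
  have e2 : (1 - x⁻¹) / (1 - y⁻¹) = (y * (1 - x)) / (x * (1 - y)) := by
    have hz : 1 - y⁻¹ = (y - 1) / y := by field_simp
    have hz' : 1 - x⁻¹ = (x - 1) / x := by field_simp
    rw [hz, hz', div_div_div_eq, div_eq_div_iff (mul_ne_zero hx ny') (mul_ne_zero hx ny)]
    ring
  have e3 : 1 - (y * (1 - x)) / (x * (1 - y)) = (x - y) / (x * (1 - y)) := by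
    field_simp; ring
  have e4 : 1 - (1 - x) / (1 - y) = (x - y) / (1 - y) := by
    field_simp; ring
  simp only [St]
  rw [e2, e1, e3, e4, lg_div hy hx, lg_div nz hx, lg_div (mul_ne_zero hy nx) (mul_ne_zero hx ny),
    lg_div nz (mul_ne_zero hx ny), lg_div nx ny, lg_div nz ny, lg_mul hy nx, lg_mul hx ny]
  generalize lg x = a
  generalize lg y = b
  generalize lg (1 - x) = a'
  generalize lg (1 - y) = b'
  generalize lg (x - y) = c
  simp only [map_add, map_sub, AddMonoidHom.add_apply, AddMonoidHom.sub_apply]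
  have h3 := A.swap a a'
  have h4 := A.swap a b'
  linear_combination (norm := module) h3 - h4

/-- If `y'/y` and the two other elements are involved, `St y = St y'`. -/
lemma transfer {y y' : F} (hy : y ≠ 0) (hy1 : y ≠ 1) (hy' : y' ≠ 0) (hy'1 : y' ≠ 1)
    (h : y ≠ y' → A.O (lg (y' / y)) (lg ((y - y') / y)) = 0)
    (h' : y ≠ y' → A.O (lg ((1 - y) / (1 - y'))) (lg ((y - y') / (1 - y'))) = 0)
    (h'' : y ≠ y' → A.O (lg ((y' * (1 - y)) / (y * (1 - y'))))
      (lg ((y - y') / (y * (1 - y')))) = 0) : A.St y = A.St y' := by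
  by_cases hyy : y = y'
  · rw [hyy]
  have nx : 1 - y ≠ 0 := sub_ne_zero.2 (Ne.symm hy1)
  have ny : 1 - y' ≠ 0 := sub_ne_zero.2 (Ne.symm hy'1)
  have nz : y - y' ≠ 0 := sub_ne_zero.2 hyy
  have nx' : y - 1 ≠ 0 := sub_ne_zero.2 hy1
  have ny' : y' - 1 ≠ 0 := sub_ne_zero.2 hy'1
  have e1 : 1 - y' / y = (y - y') / y := by field_simp
  have e2 : (1 - y⁻¹) / (1 - y'⁻¹) = (y' * (1 - y)) / (y * (1 - y')) := by
    have hz : 1 - y'⁻¹ = (y' - 1) / y' := by field_simp
    have hz' : 1 - y⁻¹ = (y - 1) / y := by field_simp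
    rw [hz, hz', div_div_div_eq, div_eq_div_iff (mul_ne_zero hy ny') (mul_ne_zero hy ny)]
    ring
  have e3 : 1 - (y' * (1 - y)) / (y * (1 - y')) = (y - y') / (y * (1 - y')) := by
    field_simp; ring
  have e4 : 1 - (1 - y) / (1 - y') = (y - y') / (1 - y') := by
    field_simp; ring
  have h5 := A.five hy hy1 hy' hy'1 hyy
  have f1 : A.St (y' / y) = 0 := by rw [St, e1]; exact h hyy
  have f2 : A.St ((1 - y) / (1 - y')) = 0 := by rw [St, e4]; exact h' hyy
  have f3 : A.St ((1 - y⁻¹) / (1 - y'⁻¹)) = 0 := by rw [e2, St, e3]; exact h'' hyy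
  rw [f1, f2, f3] at h5
  linear_combination (norm := module) h5

end AF

end Helper11.Gon
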