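import Pool.Agent.Helper11.Gon.Defs

set_option autoImplicit false

/-!
# Trilinear forms vanishing on Steinberg elements: basic consequences
-/

noncomputable section

open scoped Classical

namespace Helper11.Gon

universe u v w

section
variable {F : Type u} [Field F]

@[simp] lemma lg_zero : lg (0 : F) = 0 := by simp [lg]

@[simp] lemma lg_one : lg (1 : F) = 0 := by
  rw [lg, dif_neg one_ne_zero]
  have : Units.mk0 (1 : F) one_ne_zero = 1 := by ext; simp
  rw [this]; rfl

lemma lg_mul {x y : F} (hx : x ≠ 0) (hy : y ≠ 0) : lg (x * y) = lg x + lg y := by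
  rw [lg, lg, lg, dif_neg hx, dif_neg hy, dif_neg (mul_ne_zero hx hy), ← ofMul_mul]
  congr 1
  ext; simp

lemma lg_unit (v : Fˣ) : lg (v : F) = Additive.ofMul v := by
  simp [lg]

lemma lg_toMul (v : Additive Fˣ) : lg ((v.toMul : Fˣ) : F) = v := lg_unit _

lemma lg_inv (x : F) : lg x⁻¹ = - lg x := by
  by_cases hx : x = 0
  · subst hx; simp
  · have h := lg_mul (inv_ne_zero hx) hx
    rw [inv_mul_cancel₀ hx, lg_one] at h
    exact eq_neg_of_add_eq_zero_left h.symm

lemma lg_div {x y : F} (hx : x ≠ 0) (hy : y ≠ 0) : lg (x / y) = lg x - lg y := by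
  rw [div_eq_mul_inv, lg_mul hx (inv_ne_zero hy), lg_inv, sub_eq_add_neg]

lemma lg_pow {x : F} (hx : x ≠ 0) (n : ℕ) : lg (x ^ n) = n • lg x := by
  induction n with
  | zero => simp
  | succ n ih => rw [pow_succ, lg_mul (pow_ne_zero _ hx) hx, ih, succ_nsmul]

section
variable {A : Type v} [AddCommGroup A] {Q : Type w} [AddCommGroup Q] [Module ℚ Q]

lemma q_tors {n : ℕ} (hn : n ≠ 0) {x : Q} (h : n • x = 0) : x = 0 := by
  rw [← Nat.cast_smul_eq_nsmul ℚ] at h
  rcases smul_eq_zero.1 h with h | h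
  · exact absurd h (by exact_mod_cast hn)
  · exact h

lemma q_tors_int {n : ℤ} (hn : n ≠ 0) {x : Q} (h : n • x = 0) : x = 0 := by
  rw [← Int.cast_smul_eq_zsmul ℚ] at h
  rcases smul_eq_zero.1 h with h | h
  · exact absurd h (by exact_mod_cast hn)
  · exact h

lemma hom_tors (f : A →+ Q) {n : ℕ} (hn : n ≠ 0) {v : A} (h : n • v = 0) : f v = 0 :=
  q_tors hn (by rw [← map_nsmul, h, map_zero])

end

variable {Q : Type w} [AddCommGroup Q] [Module ℚ Q]

lemma hom_neg (f : Additive Fˣ →+ Q) (x : F) : f (lg (-x)) = f (lg x) := by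
  by_cases hx : x = 0
  · subst hx; simp
  have h1 : (-x : F) = (-1) * x := by ring
  have h2 : (2 : ℕ) • lg (-1 : F) = 0 := by
    rw [← lg_pow (by simp)]; simp
  rw [h1, lg_mul (by simp) hx, map_add, hom_tors f two_ne_zero h2, zero_add]

end

/-- A trilinear form with values in a rational vector space, symmetric in the last two
variables and vanishing on `(1 - f, f, f)`. -/
structure TF (F : Type u) [Field F] (Q : Type w) [AddCommGroup Q] [Module ℚ Q] where
  T : Additive Fˣ →+ Additive Fˣ →+ Additive Fˣ →+ Q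
  sym : ∀ u v w, T u v w = T u w v
  st : ∀ f : F, f ≠ 0 → 1 - f ≠ 0 → T (lg (1 - f)) (lg f) (lg f) = 0

namespace TF

variable {F : Type u} [Field F] {Q : Type w} [AddCommGroup Q] [Module ℚ Q] (X : TF F Q)

lemma neg1 (x : F) (v w : Additive Fˣ) : X.T (lg (-x)) v w = X.T (lg x) v w :=
  hom_neg ((X.T.flip v).flip w) x

lemma neg2 (u : Additive Fˣ) (x : F) (w : Additive Fˣ) : X.T u (lg (-x)) w = X.T u (lg x) w :=
  hom_neg ((X.T u).flip w) x

lemma neg3 (u v : Additive Fˣ) (x : F) : X.T u v (lg (-x)) = X.T u v (lg x) :=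
  hom_neg (X.T u v) x

lemma cube_lg (f : F) : X.T (lg f) (lg f) (lg f) = 0 := by
  by_cases h0 : f = 0
  · subst h0; simp
  by_cases h1 : 1 - f = 0
  · have : f = 1 := (sub_eq_zero.1 h1).symm
    subst this; simp
  have h2 : f - 1 ≠ 0 := fun h => h1 (by linear_combination -h)
  have e : 1 - f⁻¹ = (f - 1) / f := by field_simp
  have h := X.st f⁻¹ (inv_ne_zero h0) (by rw [e]; exact div_ne_zero h2 h0)
  have e1 : (f - 1 : F) = -(1 - f) := by ring
  rw [e, lg_div h2 h0, lg_inv, e1] at h
  simp only [map_sub, map_neg, AddMonoidHom.sub_apply, AddMonoidHom.neg_apply, X.neg1,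
    X.st f h0 h1, neg_neg, neg_zero, zero_sub] at h
  simpa using h

lemma cube (v : Additive Fˣ) : X.T v v v = 0 := by
  have := X.cube_lg ((v.toMul : Fˣ) : F)
  rwa [lg_toMul] at this

lemma cyc (u v w : Additive Fˣ) : X.T u v w + X.T v w u + X.T w u v = 0 := by
  have h0 := X.cube (u + v + w)
  have h1 := X.cube (u + v)
  have h2 := X.cube (v + w)
  have h3 := X.cube (u + w)
  have hu := X.cube u
  have hv := X.cube v
  have hw := X.cube w
  simp only [map_add, AddMonoidHom.add_apply] at h0 h1 h2 h3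
  have s1 := X.sym u v w
  have s2 := X.sym v w u
  have s3 := X.sym w u v
  have key : (2 : ℕ) • (X.T u v w + X.T v w u + X.T w u v) = 0 := by
    linear_combination (norm := module) h0 - h1 - h2 - h3 + hu + hv + hw + s1 + s2 + s3
  exact q_tors two_ne_zero key

end TF

end Helper11.Gon
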