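import Pool.Agent.Helper14.Gon.Exact

set_option autoImplicit false

/-!
# Exactness at `B_2 ⊗ Λ^{j+1}` modulo `ker δ_2 ⊗ Λ^{j+1}`

Adaptation of `Helper14/Gon/Alt.lean` and `Helper14/Gon/Exact.lean` to the case where `dT 0` is
only surjective.
-/

noncomputable section

open Polynomial TensorProduct Filter
open scoped Classical

namespace Helper11.Gon.Ex

open Helper14.Gon

universe u v w x y

section
variable {F : Type u} [Field F] (s : Tx 2 F →ₗ[ℚ] Cx 2 0 F)

/-- A preimage of `v ∧ w` in `B_2 ⊗ ℚ`, bilinear in `v, w`. -/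
def be : Additive Fˣ →+ Additive Fˣ →+ Cx 2 0 F :=
  AddMonoidHom.mk' (fun v => s.toAddMonoidHom.comp (tw v)) (by
    intro a b
    refine DFunLike.ext _ _ fun w => ?_
    change s (tw (a + b) w) = s (tw a w) + s (tw b w)
    rw [map_add, AddMonoidHom.add_apply, map_add])

lemma be_apply (v w : Additive Fˣ) : be s v w = s (tw v w) := rfl

lemma be_f (hsec : ∀ z, dT 0 (s z) = z) (f : F) :
    dT 0 (be s (lg (1 - f)) (lg f) - g0 2 (some f)) = 0 := by
  rw [be_apply, tw_apply, map_sub, hsec, dT_g0]
  exact sub_self _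

lemma be_self (v : Additive Fˣ) : be s v v = 0 := by
  rw [be_apply, tw_apply, wdg_self, toQ, tmul_zero, map_zero]

lemma be_swap (v w : Additive Fˣ) : be s w v = - be s v w := by
  have h := be_self s (v + w)
  simp only [map_add, AddMonoidHom.add_apply, be_self s v, be_self s w] at h
  rw [zero_add, add_zero] at h
  exact eq_neg_of_add_eq_zero_left h

/-- The image of `B_3 ⊗ Λ^j` plus `ker δ_2 ⊗ Λ^{j+1}`. -/
def WW (F : Type u) [Field F] (j : ℕ) : Submodule ℚ (Cx 2 (j + 1) F) :=
  LinearMap.range (dC 0 j : Cx 3 j F →ₗ[ℚ] _) ⊔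
    Submodule.span ℚ {y | ∃ (ω : Lam (j + 1) F) (z : Cx 2 0 F), dT 0 z = 0 ∧
      y = mW 2 (j + 1) ω z}

/-- The quotient of `B_2 ⊗ Λ^{j+1}` by the image of `B_3 ⊗ Λ^j` and `ker δ_2 ⊗ Λ^{j+1}`. -/
abbrev Qu (F : Type u) [Field F] (j : ℕ) : Type u := Cx 2 (j + 1) F ⧸ WW F j

/-- The class in the quotient. -/
def qk (j : ℕ) : Cx 2 (j + 1) F →+ Qu F j := (WW F j).mkQ.toAddMonoidHom

/-- The map `(v, w, ω) ↦ [be(v, w) ⊗ ω]`. -/
def b3 (j : ℕ) (u v : Additive Fˣ) (ω : Lam (j + 1) F) : Qu F j :=
  qk j (mWH 2 (j + 1) ω (be s u v))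

lemma b3_add1 (j : ℕ) (u u' v : Additive Fˣ) (ω : Lam (j + 1) F) :
    b3 s j (u + u') v ω = b3 s j u v ω + b3 s j u' v ω := by
  simp only [b3, map_add, AddMonoidHom.add_apply]

lemma b3_add2 (j : ℕ) (u v v' : Additive Fˣ) (ω : Lam (j + 1) F) :
    b3 s j u (v + v') ω = b3 s j u v ω + b3 s j u v' ω := by
  simp only [b3, map_add]

lemma b3_add3 (j : ℕ) (u v : Additive Fˣ) (ω ω' : Lam (j + 1) F) :
    b3 s j u v (ω + ω') = b3 s j u v ω + b3 s j u v ω' := by
  simp only [b3, map_add, AddMonoidHom.add_apply]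

lemma b3_zs1 (j : ℕ) (c : ℤ) (u v : Additive Fˣ) (ω : Lam (j + 1) F) :
    b3 s j (c • u) v ω = c • b3 s j u v ω :=
  map_zsmul (AddMonoidHom.mk' (fun u => b3 s j u v ω) (fun _ _ => b3_add1 s j _ _ v ω)) c u

lemma b3_zs2 (j : ℕ) (c : ℤ) (u v : Additive Fˣ) (ω : Lam (j + 1) F) :
    b3 s j u (c • v) ω = c • b3 s j u v ω :=
  map_zsmul (AddMonoidHom.mk' (fun v => b3 s j u v ω) (fun _ _ => b3_add2 s j u _ _ ω)) c v

/-- `b3` in the last variable. -/
def b3H (j : ℕ) (u v : Additive Fˣ) : Lam (j + 1) F →+ Qu F j :=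
  AddMonoidHom.mk' (fun ω => b3 s j u v ω) (fun _ _ => b3_add3 s j u v _ _)

lemma b3_f (hsec : ∀ z, dT 0 (s z) = z) (j : ℕ) (f : F) (ω : Lam (j + 1) F) :
    b3 s j (lg (1 - f)) (lg f) ω = qk j (gen 2 (some f) ω) := by
  have h : be s (lg (1 - f)) (lg f) =
      (be s (lg (1 - f)) (lg f) - g0 2 (some f)) + g0 2 (some f) := by abel
  rw [b3, h, map_add, map_add]
  have h1 : qk j (mWH 2 (j + 1) ω (be s (lg (1 - f)) (lg f) - g0 2 (some f))) = 0 := by
    refine (Submodule.Quotient.mk_eq_zero _).2 ?_
    exact Submodule.mem_sup_right (Submodule.subset_span ⟨ω, _, be_f s hsec f, rfl⟩)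
  rw [h1, zero_add]
  change qk j (mW 2 (j + 1) ω (g0 2 (some f))) = _
  rw [mW_g0]

/-- The symmetrised map. -/
def T3 (j : ℕ) (ω : Lam j F) :
    Additive Fˣ →+ Additive Fˣ →+ Additive Fˣ →+ Qu F j :=
  AddMonoidHom.mk' (fun u => AddMonoidHom.mk' (fun v => AddMonoidHom.mk'
    (fun w => b3 s j u v (wL j w ω) + b3 s j u w (wL j v ω))
    (by
      intro a b
      rw [map_add, LinearMap.add_apply, b3_add3, b3_add2]; abel))
    (by
      intro a b
      refine DFunLike.ext _ _ fun w => ?_
      change b3 s j u (a + b) (wL j w ω) + b3 s j u w (wL j (a + b) ω) =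
        (b3 s j u a (wL j w ω) + b3 s j u w (wL j a ω)) +
        (b3 s j u b (wL j w ω) + b3 s j u w (wL j b ω))
      rw [map_add, LinearMap.add_apply, b3_add3, b3_add2]; abel))
    (by
      intro a b
      refine DFunLike.ext _ _ fun v => DFunLike.ext _ _ fun w => ?_
      change b3 s j (a + b) v (wL j w ω) + b3 s j (a + b) w (wL j v ω) =
        (b3 s j a v (wL j w ω) + b3 s j a w (wL j v ω)) +
        (b3 s j b v (wL j w ω) + b3 s j b w (wL j v ω))
      rw [b3_add1, b3_add1]; abel)

lemma T3_apply (j : ℕ) (ω : Lam j F) (u v w : Additive Fˣ) :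
    T3 s j ω u v w = b3 s j u v (wL j w ω) + b3 s j u w (wL j v ω) := rfl

lemma T3_sym (j : ℕ) (ω : Lam j F) (u v w : Additive Fˣ) :
    T3 s j ω u v w = T3 s j ω u w v := by
  rw [T3_apply, T3_apply, add_comm]

lemma T3_f (hsec : ∀ z, dT 0 (s z) = z) (j : ℕ) (ω : Lam j F) (f : F) :
    T3 s j ω (lg (1 - f)) (lg f) (lg f) = 0 := by
  have h : b3 s j (lg (1 - f)) (lg f) (wL j (lg f) ω) = 0 := by
    rw [b3_f s hsec]
    have : (gen 2 (some f) (wL j (lg f) ω) : Cx 2 (j + 1) F) =
        dC 0 j (gen 3 (some f) ω) := by rw [dC_gen]; rfl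
    rw [this]
    exact (Submodule.Quotient.mk_eq_zero _).2 (Submodule.mem_sup_left ⟨_, rfl⟩)
  rw [T3_apply, h, add_zero]

/-- The multilinear map `(v_0, v_1, …) ↦ [be(v_0, v_1) ⊗ v_2 ∧ …]`. -/
def mul3 (j : ℕ) : MultilinearMap ℤ (fun _ : Fin (j + 3) => Additive Fˣ) (Qu F j) where
  toFun v := b3 s j (v 0) (v 1) (exteriorPower.ιMulti ℤ (j + 1) (fun i => v i.succ.succ))
  map_update_add' := by
    intro _ v m x y
    refine Fin.cases ?_ (fun m => ?_) m
    · have e : ∀ z : Additive Fˣ, (fun i : Fin (j + 1) =>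
          Function.update v 0 z i.succ.succ) = fun i => v i.succ.succ := by
        intro z; funext i
        exact Function.update_of_ne (ss_ne_zero i) _ _
      have e1 : ∀ z : Additive Fˣ, Function.update v 0 z 1 = v 1 := by
        intro z; exact Function.update_of_ne (by simp) _ _
      simp only [Function.update_self, e, e1]
      convert b3_add1 s j x y (v 1) (exteriorPower.ιMulti ℤ (j + 1) (fun i => v i.succ.succ))
    · refine Fin.cases ?_ (fun m => ?_) m
      · have e : ∀ z : Additive Fˣ, (fun i : Fin (j + 1) =>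
            Function.update v 1 z i.succ.succ) = fun i => v i.succ.succ := by
          intro z; funext i
          exact Function.update_of_ne (ss_ne_one i) _ _
        have e1 : ∀ z : Additive Fˣ, Function.update v 1 z 0 = v 0 := by
          intro z; exact Function.update_of_ne (by simp) _ _
        simp only [Fin.succ_zero_eq_one, Function.update_self, e, e1]
        exact b3_add2 s j _ x y _
      · have e : ∀ z : Additive Fˣ, (fun i : Fin (j + 1) =>
            Function.update v m.succ.succ z i.succ.succ) =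
            Function.update (fun i : Fin (j + 1) => v i.succ.succ) m z := by
          intro z; funext i
          by_cases hi : i = m
          · subst hi; simp
          · rw [Function.update_of_ne hi, Function.update_of_ne]
            simpa using hi
        have e0 : ∀ z : Additive Fˣ, Function.update v m.succ.succ z 0 = v 0 := by
          intro z; exact Function.update_of_ne (ss_ne_zero m).symm _ _
        have e1 : ∀ z : Additive Fˣ, Function.update v m.succ.succ z 1 = v 1 := by
          intro z; exact Function.update_of_ne (ss_ne_one m).symm _ _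
        simp only [e0, e1]
        rw [e, e, e, (exteriorPower.ιMulti ℤ (j + 1)).map_update_add, b3_add3]
  map_update_smul' := by
    intro _ v m c x
    refine Fin.cases ?_ (fun m => ?_) m
    · have e : ∀ z : Additive Fˣ, (fun i : Fin (j + 1) =>
          Function.update v 0 z i.succ.succ) = fun i => v i.succ.succ := by
        intro z; funext i
        exact Function.update_of_ne (ss_ne_zero i) _ _
      have e1 : ∀ z : Additive Fˣ, Function.update v 0 z 1 = v 1 := by
        intro z; exact Function.update_of_ne (by simp) _ _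
      simp only [Function.update_self, e, e1]
      exact b3_zs1 s j c x _ _
    · refine Fin.cases ?_ (fun m => ?_) m
      · have e : ∀ z : Additive Fˣ, (fun i : Fin (j + 1) =>
            Function.update v 1 z i.succ.succ) = fun i => v i.succ.succ := by
          intro z; funext i
          exact Function.update_of_ne (ss_ne_one i) _ _
        have e1 : ∀ z : Additive Fˣ, Function.update v 1 z 0 = v 0 := by
          intro z; exact Function.update_of_ne (by simp) _ _
        simp only [Fin.succ_zero_eq_one, Function.update_self, e, e1]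
        exact b3_zs2 s j c _ x _
      · have e : ∀ z : Additive Fˣ, (fun i : Fin (j + 1) =>
            Function.update v m.succ.succ z i.succ.succ) =
            Function.update (fun i : Fin (j + 1) => v i.succ.succ) m z := by
          intro z; funext i
          by_cases hi : i = m
          · subst hi; simp
          · rw [Function.update_of_ne hi, Function.update_of_ne]
            simpa using hi
        have e0 : ∀ z : Additive Fˣ, Function.update v m.succ.succ z 0 = v 0 := by
          intro z; exact Function.update_of_ne (ss_ne_zero m).symm _ _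
        have e1 : ∀ z : Additive Fˣ, Function.update v m.succ.succ z 1 = v 1 := by
          intro z; exact Function.update_of_ne (ss_ne_one m).symm _ _
        simp only [e0, e1]
        rw [e, e, (exteriorPower.ιMulti ℤ (j + 1)).map_update_smul]
        exact map_zsmul (b3H s j (v 0) (v 1)) c _

lemma mul3_apply (j : ℕ) (v : Fin (j + 3) → Additive Fˣ) :
    mul3 s j v = b3 s j (v 0) (v 1)
      (exteriorPower.ιMulti ℤ (j + 1) (fun i => v i.succ.succ)) := rfl

/-- The hypothesis that the symmetrised map vanishes. -/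
def SymZero (j : ℕ) : Prop := ∀ (ω : Lam j F) (u v w : Additive Fˣ), T3 s j ω u v w = 0

lemma mul3_swap (j : ℕ) (hs : SymZero s j) (v : Fin (j + 3) → Additive Fˣ)
    (i : Fin (j + 2)) :
    mul3 s j (v ∘ Equiv.swap i.castSucc i.succ) = - mul3 s j v := by
  rw [mul3_apply, mul3_apply]
  refine Fin.cases ?_ (fun i => ?_) i
  · have e0 : (v ∘ Equiv.swap (0 : Fin (j + 2)).castSucc (0 : Fin (j + 2)).succ) 0 = v 1 := by
      rw [Function.comp_apply, Fin.castSucc_zero, Equiv.swap_apply_left]; rfl
    have e1 : (v ∘ Equiv.swap (0 : Fin (j + 2)).castSucc (0 : Fin (j + 2)).succ) 1 = v 0 := by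
      rw [Function.comp_apply, Fin.castSucc_zero, Fin.succ_zero_eq_one, Equiv.swap_apply_right]
    have e2 : (fun i : Fin (j + 1) => (v ∘ Equiv.swap (0 : Fin (j + 2)).castSucc
        (0 : Fin (j + 2)).succ) i.succ.succ) = fun i => v i.succ.succ := by
      funext i
      rw [Function.comp_apply, Fin.castSucc_zero, Fin.succ_zero_eq_one,
        Equiv.swap_apply_of_ne_of_ne (ss_ne_zero i) (ss_ne_one i)]
    rw [e0, e1, e2, b3, b3, be_swap s (v 0) (v 1), map_neg, map_neg]
  · refine Fin.cases ?_ (fun i => ?_) i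
    · set σ := Equiv.swap (Fin.succ (0 : Fin (j + 1))).castSucc
        (Fin.succ (0 : Fin (j + 1))).succ with hσ
      have hl : (Fin.succ (0 : Fin (j + 1))).castSucc = (1 : Fin (j + 3)) := rfl
      have hr : (Fin.succ (0 : Fin (j + 1))).succ = (2 : Fin (j + 3)) := rfl
      have e0 : (v ∘ σ) 0 = v 0 := by
        rw [Function.comp_apply, hσ, Equiv.swap_apply_of_ne_of_ne]
        · rw [hl]; exact fun h => absurd (congrArg Fin.val h) (by simp)
        · exact (Fin.succ_ne_zero _).symm
      have e1 : (v ∘ σ) 1 = v 2 := by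
        rw [Function.comp_apply, hσ, hl, hr, Equiv.swap_apply_left]
      have e2 : (fun i : Fin (j + 1) => (v ∘ σ) i.succ.succ) =
          Matrix.vecCons (v 1) (fun i : Fin j => v i.succ.succ.succ) := by
        funext i
        refine Fin.cases ?_ (fun i => ?_) i
        · change (v ∘ σ) 2 = v 1
          rw [Function.comp_apply, hσ, hl, hr, Equiv.swap_apply_right]
        · change (v ∘ σ) i.succ.succ.succ = v i.succ.succ.succ
          rw [Function.comp_apply, hσ, hl, Equiv.swap_apply_of_ne_of_ne]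
          · exact ss_ne_one i.succ
          · intro h
            have := congrArg Fin.val h
            simp only [Fin.val_succ] at this
            have h2 : ((0 : Fin (j + 1)) : ℕ) = 0 := rfl
            omega
      have e3 : (fun i : Fin (j + 1) => v i.succ.succ) =
          Matrix.vecCons (v 2) (fun i : Fin j => v i.succ.succ.succ) := by
        funext i
        refine Fin.cases ?_ (fun i => ?_) i
        · rfl
        · rfl
      rw [e0, e1, e2, e3, ← wL_ιMulti, ← wL_ιMulti]
      have h := hs (exteriorPower.ιMulti ℤ j (fun i : Fin j => v i.succ.succ.succ))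
        (v 0) (v 2) (v 1)
      rw [T3_apply] at h
      exact eq_neg_of_add_eq_zero_left h
    · set σ := Equiv.swap (Fin.succ (Fin.succ i)).castSucc (Fin.succ (Fin.succ i)).succ with hσ
      have hl : (Fin.succ (Fin.succ i)).castSucc = (i.castSucc.succ.succ : Fin (j + 3)) := rfl
      have e0 : (v ∘ σ) 0 = v 0 := by
        rw [Function.comp_apply, hσ, hl, Equiv.swap_apply_of_ne_of_ne]
        · exact (Fin.succ_ne_zero _).symm
        · exact (Fin.succ_ne_zero _).symm
      have e1 : (v ∘ σ) 1 = v 1 := by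
        rw [Function.comp_apply, hσ, hl, Equiv.swap_apply_of_ne_of_ne]
        · exact (ss_ne_one _).symm
        · exact (ss_ne_one _).symm
      have e2 : (fun m : Fin (j + 1) => (v ∘ σ) m.succ.succ) =
          (fun m : Fin (j + 1) => v m.succ.succ) ∘ Equiv.swap i.castSucc i.succ := by
        funext m
        simp only [Function.comp_apply]
        congr 1
        by_cases h1 : m = i.castSucc
        · subst h1
          rw [Equiv.swap_apply_left, hσ, hl, Equiv.swap_apply_left]
        · by_cases h2 : m = i.succ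
          · subst h2
            rw [hσ, hl, Equiv.swap_apply_right, Equiv.swap_apply_right]
          · rw [Equiv.swap_apply_of_ne_of_ne h1 h2, hσ, hl, Equiv.swap_apply_of_ne_of_ne]
            · intro h; exact h1 (Fin.succ_injective _ (Fin.succ_injective _ h))
            · intro h; exact h2 (Fin.succ_injective _ (Fin.succ_injective _ h))
      rw [e0, e1, e2, (exteriorPower.ιMulti ℤ (j + 1)).map_swap _ (Fin.castSucc_lt_succ).ne]
      exact map_neg (b3H s j (v 0) (v 1)) _

/-- The inverse construction `Λ^{j+3} → Qu F j`. -/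
def psi (j : ℕ) (hs : SymZero s j) : Lam (j + 3) F →ₗ[ℤ] Qu F j :=
  exteriorPower.alternatingMapLinearEquiv (altOf (mul3 s j) (mul3_swap s j hs))

lemma psi_ιMulti (j : ℕ) (hs : SymZero s j) (v : Fin (j + 3) → Additive Fˣ) :
    psi s j hs (exteriorPower.ιMulti ℤ (j + 3) v) = mul3 s j v := by
  simp only [psi]
  rw [exteriorPower.alternatingMapLinearEquiv_apply_ιMulti]
  rfl

/-- The rational version. -/
def psiQ (j : ℕ) (hs : SymZero s j) : Tx (j + 3) F →ₗ[ℚ] Qu F j :=
  LinearMap.liftBaseChange ℚ (psi s j hs)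

lemma psiQ_toQ (j : ℕ) (hs : SymZero s j) (ω : Lam (j + 3) F) :
    psiQ s j hs (toQ ω) = psi s j hs ω := by
  simp only [psiQ, toQ]
  exact LinearMap.liftBaseChange_one_tmul ℚ _ _

lemma psiQ_dT (hsec : ∀ z, dT 0 (s z) = z) (j : ℕ) (hs : SymZero s j) :
    (psiQ s j hs) ∘ₗ (dT (j + 1)) = (WW F j).mkQ := by
  refine Cx_ext fun x ω => ?_
  rw [LinearMap.comp_apply, dT_gen, psiQ_toQ]
  cases x with
  | none =>
    have h0 : (gen 2 none ω : Cx 2 (j + 1) F) = 0 := by
      have : cl 2 (none : P1 F) = 0 := (QuotientAddGroup.eq_zero_iff _).2 (br_inf_mem 1)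
      rw [gen, this, zero_tmul, toQ, tmul_zero]
    rw [h0, d2, map_zero, LinearMap.zero_apply, map_zero, map_zero]
  | some f =>
    have key : (psi s j hs).toAddMonoidHom.comp
        (mulW (j + 1) (d2 (some f))).toAddMonoidHom =
        b3H s j (lg (1 - f)) (lg f) := by
      refine lam_ext fun w => ?_
      change psi s j hs (mulW (j + 1) (wdg (lg (1 - f)) (lg f)) _) = b3 s j _ _ _
      have : mulW (j + 1) (wdg (lg (1 - f)) (lg f)) (exteriorPower.ιMulti ℤ (j + 1) w) =
          exteriorPower.ιMulti ℤ (j + 3)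
            (Matrix.vecCons (lg (1 - f)) (Matrix.vecCons (lg f) w)) := by
        rw [mulW_wdg, wL_ιMulti, wL_ιMulti]
      rw [this, psi_ιMulti, mul3_apply]
      rfl
    have h1 : psi s j hs (mulW (j + 1) (d2 (some f)) ω) =
        b3 s j (lg (1 - f)) (lg f) ω := DFunLike.congr_fun key ω
    change psi s j hs (mulW (j + 1) (d2 (some f)) ω) = _
    rw [h1, b3_f s hsec]
    rfl

end

end Helper11.Gon.Ex

namespace Helper14.Gon

universe u

/-- Exactness at `B_2 ⊗ Λ^{j+1}` up to `ker δ_2 ⊗ Λ^{j+1}`, from the weight-three key computation. -/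
theorem exact_of_tri {F : Type u} [Field F]
    (hT : ∀ (Q : Type u) [AddCommGroup Q] [Module ℚ Q]
      (T : Additive Fˣ →+ Additive Fˣ →+ Additive Fˣ →+ Q),
      (∀ u v w, T u v w = T u w v) →
      (∀ f : F, f ≠ 0 → 1 - f ≠ 0 → T (lg (1 - f)) (lg f) (lg f) = 0) →
      ∀ u v w, T u v w = 0)
    (hs : ∀ v w : Additive Fˣ, tw v w ∈ LinearMap.range (dT 0 : Cx 2 0 F →ₗ[ℚ] _))
    (j : ℕ) :
    LinearMap.ker (dT (j + 1) : Cx 2 (j + 1) F →ₗ[ℚ] _) ≤
      LinearMap.range (dC 0 j : Cx 3 j F →ₗ[ℚ] _) ⊔
        Submodule.span ℚ {y | ∃ (ω : Lam (j + 1) F) (z : Cx 2 0 F), dT 0 z = 0 ∧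
          y = mW 2 (j + 1) ω z} := by
  obtain ⟨s, hsec'⟩ := LinearMap.exists_rightInverse_of_surjective
    (dT 0 : Cx 2 0 F →ₗ[ℚ] Tx 2 F) (dT_surj hs 0)
  have hsec : ∀ z, dT 0 (s z) = z := fun z => LinearMap.congr_fun hsec' z
  have hsym : Helper11.Gon.Ex.SymZero s j := fun ω u v w =>
    hT (Helper11.Gon.Ex.Qu F j) (Helper11.Gon.Ex.T3 s j ω)
      (fun u v w => Helper11.Gon.Ex.T3_sym s j ω u v w)
      (fun f _ _ => Helper11.Gon.Ex.T3_f s hsec j ω f) u v w
  intro z hz
  have h1 : dT (j + 1) z = 0 := hz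
  have h2 := LinearMap.congr_fun (Helper11.Gon.Ex.psiQ_dT s hsec j hsym) z
  rw [LinearMap.comp_apply, h1, map_zero] at h2
  exact (Submodule.Quotient.mk_eq_zero _).1 h2.symm

end Helper14.Gon
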