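import Pool.Agent.Helper11.Gon.Main
import Pool.Agent.Helper11.Gon.Ex
import Pool.Agent.Helper26.Gon3.PNs
import Pool.Agent.Helper71.Gon3.Lim
import Pool.Agent.Helper14.Gon.Final

set_option autoImplicit false

/-!
# Assembly: `F = ℚ` and `F = k(t)`, `k` algebraic over `F_p`
-/

noncomputable section

open scoped Classical
open Polynomial TensorProduct

namespace Helper11.Gon

universe u v w

/-- Trilinear forms (symmetric in the last two variables) vanishing on `(1 - f, f, f)` are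
zero. -/
def TriZero (F : Type u) [Field F] : Prop :=
  ∀ (Q : Type w) [AddCommGroup Q] [Module ℚ Q]
      (T : Additive Fˣ →+ Additive Fˣ →+ Additive Fˣ →+ Q),
      (∀ u v w, T u v w = T u w v) →
      (∀ f : F, f ≠ 0 → 1 - f ≠ 0 → T (lg (1 - f)) (lg f) (lg f) = 0) →
      ∀ u v w, T u v w = 0

theorem triZero_rat : TriZero.{0, w} ℚ := by
  intro Q _ _ T h1 h2 u v w
  exact form_zero (R := ℤ) pnInt (F := ℚ) ⟨T, h1, h2⟩ u v w

theorem triZero_ratFunc {k : Type u} [Field k] {p : ℕ} (hp : p.Prime) [CharP k p]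
    (halg : ∀ x : k, ∃ m : ℕ, m ≠ 0 ∧ x ^ p ^ m = x) : TriZero.{u, w} (RatFunc k) := by
  intro Q _ _ T h1 h2 u v w
  refine tri_of_finite hp halg ?_ Q T h1 h2 u v w
  intro k0 _ _ Q _ _ T h1 h2 u v w
  exact form_zero (R := k0[X]) (pnPoly k0) (F := RatFunc k0) ⟨T, h1, h2⟩ u v w

/-- Invariance under isomorphisms. -/
theorem TriZero.congr {F : Type u} {F' : Type v} [Field F] [Field F'] (e : F ≃+* F')
    (h : TriZero.{v, w} F') : TriZero.{u, w} F := by
  intro Q _ _ T h1 h2 u v w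
  have hsurj : ∀ x : Additive Fˣ, ∃ y, uMap (e.symm : F' →+* F) y = x := fun x =>
    exists_uMap _ x ⟨e (x.toMul : Fˣ), by simp⟩
  obtain ⟨u', rfl⟩ := hsurj u
  obtain ⟨v', rfl⟩ := hsurj v
  obtain ⟨w', rfl⟩ := hsurj w
  rw [← pull_apply]
  refine h Q _ (fun x y z => ?_) (fun f h3 h4 => ?_) u' v' w'
  · rw [pull_apply, pull_apply, h1]
  · rw [pull_apply, uMap_lg, uMap_lg, map_sub, map_one]
    refine h2 _ (by simpa using h3) ?_
    have h5 : (e.symm : F' →+* F) (1 - f) ≠ 0 := (_root_.map_ne_zero _).2 h4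
    rwa [map_sub, map_one] at h5

/-- The bilinear statement follows from the trilinear one. -/
theorem bil_of_tri {F : Type u} [Field F] (hT : TriZero.{u, u} F) (ν : Additive Fˣ →+ ℤ)
    (t : Additive Fˣ) (ht : ν t ≠ 0) (Q : Type u) [AddCommGroup Q] [Module ℚ Q]
    (A : Additive Fˣ →+ Additive Fˣ →+ Q)
    (hA : ∀ f : F, f ≠ 0 → 1 - f ≠ 0 → A (lg (1 - f)) (lg f) = 0) (u v : Additive Fˣ) :
    A u v = 0 := by
  let T : Additive Fˣ →+ Additive Fˣ →+ Additive Fˣ →+ Q :=
    AddMonoidHom.mk' (fun u => AddMonoidHom.mk' (fun v => AddMonoidHom.mk'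
      (fun w => ν w • A u v + ν v • A u w)
      (by intro a b; simp only [map_add]; module))
      (by
        intro a b
        refine DFunLike.ext _ _ fun w => ?_
        simp only [AddMonoidHom.mk'_apply, AddMonoidHom.add_apply, map_add]
        module))
      (by
        intro a b
        refine DFunLike.ext _ _ fun v => DFunLike.ext _ _ fun w => ?_
        simp only [AddMonoidHom.mk'_apply, AddMonoidHom.add_apply, map_add]
        module)
  have hTa : ∀ u v w, T u v w = ν w • A u v + ν v • A u w := fun _ _ _ => rfl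
  have h0 := hT Q T (fun u v w => by rw [hTa, hTa, add_comm]) (fun f h1 h2 => by
    rw [hTa, hA f h1 h2, smul_zero, add_zero])
  have h1 : A u t = 0 := by
    have := h0 u t t
    rw [hTa, ← two_nsmul] at this
    exact q_tors_int ht (q_tors two_ne_zero this)
  have h2 := h0 u v t
  rw [hTa, h1, smul_zero, add_zero] at h2
  exact q_tors_int ht h2

/-- `K_2(F) ⊗ ℚ = 0`. -/
theorem tw_mem_of {F : Type u} [Field F] (hT : TriZero.{u, u} F) (ν : Additive Fˣ →+ ℤ)
    (t : Additive Fˣ) (ht : ν t ≠ 0) (v w : Additive Fˣ) :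
    Helper14.Gon.tw v w ∈
      LinearMap.range (Helper14.Gon.dT 0 : Helper14.Gon.Cx 2 0 F →ₗ[ℚ] _) := by
  set S := LinearMap.range (Helper14.Gon.dT 0 : Helper14.Gon.Cx 2 0 F →ₗ[ℚ] _) with hS
  let A : Additive Fˣ →+ Additive Fˣ →+ (Helper14.Gon.Tx 2 F ⧸ S) :=
    AddMonoidHom.mk' (fun v => S.mkQ.toAddMonoidHom.comp (Helper14.Gon.tw v)) (by
      intro a b
      refine DFunLike.ext _ _ fun w => ?_
      simp [map_add])
  have hA : ∀ u v, A u v = S.mkQ (Helper14.Gon.tw u v) := fun _ _ => rfl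
  have := bil_of_tri hT ν t ht _ A (by
    intro f h0 h1
    rw [hA, Submodule.mkQ_apply, Submodule.Quotient.mk_eq_zero]
    refine ⟨Helper14.Gon.g0 2 (some f), ?_⟩
    rw [Helper14.Gon.dT_g0]
    rfl) v w
  rw [hA, Submodule.mkQ_apply, Submodule.Quotient.mk_eq_zero] at this
  exact this

/-- The order at `2`. -/
def nu2 : Additive ℚˣ →+ ℤ := ordH (R := ℤ) (F := ℚ) 2 Int.prime_two.irreducible

lemma nu2_ne : nu2 (lr (R := ℤ) ℚ 2) ≠ 0 := by
  rw [nu2, ordH_self]; exact one_ne_zero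

/-- The order at `0`. -/
def nuX (k : Type u) [Field k] : Additive (RatFunc k)ˣ →+ ℤ :=
  ordH (R := k[X]) (F := RatFunc k) X irreducible_X

lemma nuX_ne (k : Type u) [Field k] : nuX k (lr (R := k[X]) (RatFunc k) X) ≠ 0 := by
  rw [nuX, ordH_self]; exact one_ne_zero

end Helper11.Gon

namespace Helper14.Gon

universe u

open Helper11.Gon (TriZero)

section
variable {F : Type u} [Field F] (hT : TriZero.{u, u} F)
  (hs : ∀ v w : Additive Fˣ, tw v w ∈ LinearMap.range (dT 0 : Cx 2 0 F →ₗ[ℚ] _))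
include hs

/-- `H^n(Γ(F, n) ⊗ ℚ) = 0` for all `n ≥ 2`. -/
theorem surj_dl (j : ℕ) : Function.Surjective (dl j F) := by
  intro z
  have h1 : eT F (j + 2) z ∈ LinearMap.range (dT j : Cx 2 j F →ₗ[ℚ] _) := by
    rw [dT_surj hs j]; trivial
  obtain ⟨y, hy⟩ := h1
  refine ⟨(eC F 0 j).symm y, ?_⟩
  apply (eT F (j + 2)).injective
  rw [dl_eq, LinearEquiv.apply_symm_apply, hy]

include hT

/-- `H^{n-1}(Γ(F, n) ⊗ ℚ)` comes from `ker δ_2 ⊗ Λ^{n-2}`. -/
theorem ker_dl (j : ℕ) (z : CC 0 (j + 1) F) (hz : dl (j + 1) F z = 0) :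
    eC F 0 (j + 1) z ∈ LinearMap.range (dC 0 j : Cx 3 j F →ₗ[ℚ] _) ⊔
        Submodule.span ℚ {y | ∃ (ω : Lam (j + 1) F) (z : Cx 2 0 F), dT 0 z = 0 ∧
          y = mW 2 (j + 1) ω z} := by
  refine exact_of_tri hT hs j ?_
  change dT (j + 1) (eC F 0 (j + 1) z) = 0
  rw [← dl_eq, hz, map_zero]

/-- Exactness at the last but one place if `dl 0` is injective. -/
theorem exact_dl_of_inj (hi : Function.Injective (dl 0 F)) (j : ℕ) :
    Function.Exact (dd 0 j F) (dl (j + 1) F) := by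
  intro z
  constructor
  · intro hz
    have h := ker_dl hT hs j z hz
    have h0 : Submodule.span ℚ {y | ∃ (ω : Lam (j + 1) F) (z : Cx 2 0 F), dT 0 z = 0 ∧
        y = mW 2 (j + 1) ω z} = ⊥ := by
      rw [Submodule.span_eq_bot]
      rintro y ⟨ω, z, hz, rfl⟩
      have : z = 0 := by
        have h1 : dl 0 F ((eC F 0 0).symm z) = 0 := by
          apply (eT F 2).injective
          rw [dl_eq, LinearEquiv.apply_symm_apply, map_zero]
          exact hz
        have h2 := hi (h1.trans (map_zero _).symm)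
        exact (LinearEquiv.map_eq_zero_iff _).1 h2
      rw [this, map_zero]
    rw [h0, sup_bot_eq] at h
    obtain ⟨y, hy⟩ := h
    refine ⟨(eC F 1 j).symm y, ?_⟩
    apply (eC F 0 (j + 1)).injective
    rw [dd_eq, LinearEquiv.apply_symm_apply, hy]
  · rintro ⟨y, rfl⟩
    exact dl_dd j y

end

end Helper14.Gon
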