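import Mathlib

set_option autoImplicit false

/-!
# Trilinear forms on the multiplicative group: definitions

`lg x` is the class of `x` in the additively written group `F^*` (`0` if `x = 0`), `PN R` is a
domain with a multiplicative norm and a notion of positive elements, such as `ℤ` or `k[t]`.
-/

noncomputable section

open scoped Classical

namespace Helper11.Gon

universe u v w

/-- The element of the additively written group `F^*` given by `x`; `0` if `x = 0`. -/
def lg {F : Type u} [Field F] (x : F) : Additive Fˣ :=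
  if h : x = 0 then 0 else Additive.ofMul (Units.mk0 x h)

/-- A norm and a set of positive elements on a domain `R` (for `ℤ`: the absolute value and the
positive integers; for `k[t]`: `2 ^ deg` and the nonzero polynomials). -/
structure PN (R : Type u) [CommRing R] where
  N : R → ℕ
  P : Set R
  N_mul : ∀ a b, N (a * b) = N a * N b
  N_eq_zero : ∀ a, N a = 0 ↔ a = 0
  N_unit : ∀ a, N a = 1 → IsUnit a
  tors : ∀ u : Rˣ, ∃ n : ℕ, n ≠ 0 ∧ u ^ n = 1
  zero_notMem : (0 : R) ∉ P
  one_mem : (1 : R) ∈ P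
  mul_mem : ∀ a b, a ∈ P → b ∈ P → a * b ∈ P
  sign : ∀ a, a ≠ 0 → a ∈ P ∨ -a ∈ P
  N_sub : ∀ a b, a ∈ P → b ∈ P → N (a - b) ≤ max (N a) (N b)
  sub_one : ∀ a, a ∈ P → a ≠ 1 → a - 1 ∈ P
  rep : ∀ b ∈ P, ∀ a, ¬ b ∣ a → ∃ r ∈ P, N r < N b ∧ b ∣ a - r
  fin : ∀ b ∈ P, Finite (R ⧸ Ideal.span {b})

end Helper11.Gon
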