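import Pool.Agent.Helper11.Gon.Rat

set_option autoImplicit false

/-!
# The final theorem: `F = ℚ` or `F = k(t)`, `k` algebraic over `F_p`
-/

noncomputable section

open scoped Classical
open Polynomial TensorProduct

namespace Helper14.Gon

universe u

open Helper11.Gon (TriZero uMap)

section
variable {F : Type u} [Field F]

/-- The data needed for the final theorem. -/
structure Good (F : Type u) [Field F] : Prop where
  tri : TriZero.{u, u} F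
  nu : ∃ (ν : Additive Fˣ →+ ℤ) (t : Additive Fˣ), ν t ≠ 0

lemma Good.tw (h : Good F) (v w : Additive Fˣ) :
    tw v w ∈ LinearMap.range (dT 0 : Cx 2 0 F →ₗ[ℚ] _) := by
  obtain ⟨ν, t, ht⟩ := h.nu
  exact Helper11.Gon.tw_mem_of h.tri ν t ht v w

lemma nu_congr {L : Type*} [Field L] (e : F ≃+* L) (ν : Additive Lˣ →+ ℤ) (t : Additive Lˣ)
    (ht : ν t ≠ 0) : ∃ (ν : Additive Fˣ →+ ℤ) (t : Additive Fˣ), ν t ≠ 0 := by
  obtain ⟨t', ht'⟩ := Helper11.Gon.exists_uMap (e : F →+* L) t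
    ⟨e.symm (t.toMul : Lˣ), by simp⟩
  refine ⟨ν.comp (uMap (e : F →+* L)), t', ?_⟩
  rw [AddMonoidHom.comp_apply, ht']
  exact ht

lemma good_rat (e : F ≃+* ℚ) : Good F :=
  ⟨Helper11.Gon.triZero_rat.congr e, nu_congr e _ _ Helper11.Gon.nu2_ne⟩

lemma good_ratFunc {k : Type u} [Field k] {p : ℕ} (hp : p.Prime) [CharP k p]
    (h : ∀ x : k, ∃ m : ℕ, m ≠ 0 ∧ x ^ p ^ m = x) (e : F ≃+* RatFunc k) : Good F :=
  ⟨(Helper11.Gon.triZero_ratFunc hp h).congr e, nu_congr e _ _ (Helper11.Gon.nuX_ne k)⟩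

lemma ZZ_congr {L : Type u} [Field L] (e : F ≃+* L) (k : ℕ) (h : ZZ k L = ⊥) : ZZ k F = ⊥ := by
  rw [eq_bot_iff]
  intro z hz
  have h1 : rs k 0 (e : F →+* L) z ∈ ZZ k L := rs_ZZ k (e : F →+* L) z hz
  rw [h, Submodule.mem_bot] at h1
  rw [Submodule.mem_bot, ← rs_symm k 0 e z, h1, map_zero]

/-- The final theorem. -/
theorem glob (hF : Nonempty (F ≃+* ℚ) ∨
      ∃ (p : ℕ) (k : Type u) (_ : Field k) (_ : CharP k p), p.Prime ∧
        (∀ x : k, ∃ P : Polynomial (ZMod p), P ≠ 0 ∧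
          P.eval₂ (ZMod.castHom (dvd_refl p) k) x = 0) ∧ Nonempty (F ≃+* RatFunc k)) :
    (∀ j : ℕ, Function.Surjective (dl j F)) ∧
    (∀ j : ℕ, LinearMap.ker (dl (j + 1) F) = LinearMap.range (dd 0 j F) ⊔ KL (j + 1) F) ∧
    (∀ p : ℕ, p.Prime → CharP F p → (∀ j : ℕ, KL j F = ⊥) ∧ (∀ k : ℕ, ZZ k F = ⊥)) := by
  have hg : Good F ∧ (∀ p : ℕ, p.Prime → CharP F p → ∀ k : ℕ, ZZ k F = ⊥) := by
    rcases hF with ⟨⟨e⟩⟩ | ⟨p, k, _, _, hp, halg, ⟨e⟩⟩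
    · refine ⟨good_rat e, fun p hp hc => ?_⟩
      exfalso
      have h1 : (p : F) = 0 := CharP.cast_eq_zero F p
      have h2 : (p : ℚ) = 0 := by
        rw [← map_natCast e, h1, map_zero]
      exact hp.ne_zero (by exact_mod_cast h2)
    · have : Fact p.Prime := ⟨hp⟩
      have h := exists_pow_eq p hp halg
      exact ⟨good_ratFunc hp h e, fun _ _ _ m => ZZ_congr e m (ratFunc_deg1 hp h m)⟩
  refine ⟨surj_dl hg.1.tw, ker_dl_eq hg.1.tri hg.1.tw, fun p hp hc => ⟨fun j => ?_,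
    hg.2 p hp hc⟩⟩
  exact KL_bot (LinearMap.ker_eq_bot.1 (hg.2 p hp hc 0)) j

end

end Helper14.Gon
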