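import Pool.Agent.Helper11.Gon.Ord

set_option autoImplicit false

/-!
# Several prime elements of the same norm, and the induction on the norm
-/

noncomputable section

open scoped Classical

namespace Helper11.Gon

universe u v w x

section
variable {R : Type u} [CommRing R] [IsDomain R] [IsPrincipalIdealRing R] (H : PN R)
  {F : Type x} [Field F] [Algebra R F] [IsFractionRing R F]
  {Q : Type w} [AddCommGroup Q] [Module ℚ Q] (X : TF F Q) (m : ℕ)

/-- Positive irreducible elements of norm `m`. -/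
def Irr (π : R) : Prop := π ∈ H.P ∧ Irreducible π ∧ H.N π = m

variable {H m}
  (hT : ∀ u ∈ Vm H F m, ∀ v ∈ Vm H F m, ∀ w ∈ Vm H F m, X.T u v w = 0)
include hT

lemma loc {π : R} (h : Irr H m π) :
    (∀ u ∈ Vm H F m, ∀ v ∈ Vm H F m, X.T (lr F π) u v = 0) ∧
    (∀ u ∈ Vm H F m, ∀ v ∈ Vm H F m, X.T u (lr F π) v = 0) ∧
    (∀ v ∈ Vm H F m, X.T (lr F π) (lr F π) v = 0) ∧
    (∀ v ∈ Vm H F m, X.T v (lr F π) (lr F π) = 0) := by
  obtain ⟨h1, h2, h3⟩ := h
  obtain ⟨K, _, _, L, rfl⟩ := exists_loc H h1 h2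
  subst h3
  exact local_zero L h2 X hT

/-- Two prime elements. -/
lemma cross {π π' : R} (h : Irr H m π) (h' : Irr H m π') (hd : ¬ π ∣ π') :
    (∀ u ∈ Vm H F m, X.T (lr F π) (lr F π') u = 0) ∧
      X.T (lr F π) (lr F π') (lr F π') = 0 := by
  obtain ⟨l1, l2, l3, l4⟩ := loc X hT h
  obtain ⟨l1', l2', l3', l4'⟩ := loc X hT h'
  obtain ⟨h1, h2, h3⟩ := h
  obtain ⟨h1', h2', h3'⟩ := h'
  obtain ⟨K, _, _, L, rfl⟩ := exists_loc H h1 h2
  have ρ0 : L.red π' ≠ 0 := fun h => hd ((L.red_eq_zero _).1 h)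
  set ρ : Kˣ := Units.mk0 _ ρ0 with hρ
  set φ : Kˣ → Q := fun r => X.T (lr F L.p) (lr F π') (lr F (L.rp (r : K))) with hφ
  have p0 := H.ne_zero L.mem
  have p0' := H.ne_zero h1'
  have key : ∀ v w : Kˣ, X.T (lr F L.p) (lr F π') (lr F π') +
      (2 : ℕ) • (φ (v * w / ρ) - φ v - φ w) = 0 := by
    intro v w
    have v0 := v.ne_zero
    have w0 := w.ne_zero
    have u0 := (v * w / ρ).ne_zero
    set a := L.rp ((v * w / ρ : Kˣ) : K) with ha
    set b := L.rp (v : K) with hb
    set c := L.rp (w : K) with hc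
    have a1 := L.rp_mem u0
    have a2 := L.rp_lt u0
    have a0 := L.rp_ne u0
    have b1 := L.rp_mem v0
    have b2 := L.rp_lt v0
    have b0 := L.rp_ne v0
    have c1 := L.rp_mem w0
    have c2 := L.rp_lt w0
    have c0 := L.rp_ne w0
    rw [← ha] at a1 a2 a0
    rw [← hb] at b1 b2 b0
    rw [← hc] at c1 c2 c0
    obtain ⟨k, hk⟩ := L.exists_k (e := a * π') (f := b * c) (by
      rw [map_mul, map_mul, ha, hb, hc, L.red_rp u0, L.red_rp v0, L.red_rp w0]
      rw [Units.val_div_eq_div_val, Units.val_mul, hρ, Units.val_mk0, div_mul_cancel₀ _ ρ0])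
    have kl : H.N k < H.N L.p := by
      refine H.k_lt (H.mul_mem _ _ a1 h1') (H.mul_mem _ _ b1 c1) ?_ ?_ hk
      · rw [H.N_mul, h3', ← h3]
        exact Nat.mul_lt_mul_of_pos_right a2 (by have := L.one_lt; omega)
      · rw [H.N_mul]; exact Nat.mul_lt_mul'' b2 c2
    have k0 : k ≠ 0 := by
      rintro rfl
      rw [mul_zero, sub_eq_zero] at hk
      have hdd : π' ∣ b * c := ⟨a, by rw [← hk]; ring⟩
      rcases h2'.prime.dvd_or_dvd hdd with hh | hh
      · exact H.not_dvd b0 (by rw [h3', ← h3]; exact b2) hh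
      · exact H.not_dvd c0 (by rw [h3', ← h3]; exact c2) hh
    rw [h3] at a2 b2 c2 kl
    have ma := lr_mem (F := F) H a0 a2
    have mb := lr_mem (F := F) H b0 b2
    have mc := lr_mem (F := F) H c0 c2
    have mk := lr_mem (F := F) H k0 kl
    have Fa := am_ne (F := F) a0
    have Fb := am_ne (F := F) b0
    have Fc := am_ne (F := F) c0
    have Fk := am_ne (F := F) k0
    have Fp := am_ne (F := F) p0
    have Fp' := am_ne (F := F) p0'
    have hkF : algebraMap R F a * algebraMap R F π' - algebraMap R F b * algebraMap R F c =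
        algebraMap R F L.p * algebraMap R F k := by
      rw [← map_mul, ← map_mul, ← map_sub, hk, map_mul]
    have e1 : 1 - algebraMap R F a * algebraMap R F π' /
        (algebraMap R F b * algebraMap R F c) = -(algebraMap R F L.p * algebraMap R F k /
        (algebraMap R F b * algebraMap R F c)) := by
      rw [← hkF]; field_simp; ring
    have hst := X.st (algebraMap R F a * algebraMap R F π' /
        (algebraMap R F b * algebraMap R F c))
      (div_ne_zero (mul_ne_zero Fa Fp') (mul_ne_zero Fb Fc))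
      (by rw [e1]; exact neg_ne_zero.2 (div_ne_zero (mul_ne_zero Fp Fk) (mul_ne_zero Fb Fc)))
    rw [e1, X.neg1, lg_div (mul_ne_zero Fp Fk) (mul_ne_zero Fb Fc),
      lg_div (mul_ne_zero Fa Fp') (mul_ne_zero Fb Fc), lg_mul Fp Fk, lg_mul Fb Fc,
      lg_mul Fa Fp'] at hst
    change X.T (lr F L.p + lr F k - (lr F b + lr F c))
      (lr F a + lr F π' - (lr F b + lr F c)) (lr F a + lr F π' - (lr F b + lr F c)) = 0 at hst
    have mA : lr F a - (lr F b + lr F c) ∈ Vm H F m := sub_mem ma (add_mem mb mc)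
    have mB : lr F k - (lr F b + lr F c) ∈ Vm H F m := sub_mem mk (add_mem mb mc)
    have eA : lr F a + lr F π' - (lr F b + lr F c) =
      lr F π' + (lr F a - (lr F b + lr F c)) := by abel
    have eB : lr F L.p + lr F k - (lr F b + lr F c) =
      lr F L.p + (lr F k - (lr F b + lr F c)) := by abel
    have g1 := l1 _ mA _ mA
    have g2 := l4' _ mB
    have g3 := l2' _ mB _ mA
    have g4 := hT _ mB _ mA _ mA
    have g5 := X.sym (lr F k - (lr F b + lr F c)) (lr F a - (lr F b + lr F c)) (lr F π')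
    have g6 := X.sym (lr F L.p) (lr F a - (lr F b + lr F c)) (lr F π')
    have gφ : X.T (lr F L.p) (lr F π') (lr F a - (lr F b + lr F c)) =
        φ (v * w / ρ) - φ v - φ w := by
      rw [map_sub, map_add, sub_sub]
    rw [eA, eB, map_add] at hst
    generalize lr F k - (lr F b + lr F c) = B at *
    generalize lr F a - (lr F b + lr F c) = A at *
    simp only [map_add, AddMonoidHom.add_apply] at hst
    rw [← gφ]
    linear_combination (norm := module) hst - g1 - g2 - 2 • g3 - g4 - g5 - g6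
  have φ1 : φ 1 = 0 := by
    simp only [hφ, Units.val_one, L.rp_one, lr_one, map_zero]
  have hmul : ∀ v w : Kˣ, φ (v * w) = φ v + φ w := by
    intro v w
    have k1 := key (ρ * v) w
    have k2 := key (ρ * v) 1
    rw [mul_assoc, mul_div_cancel_left] at k1
    rw [mul_assoc, mul_div_cancel_left, mul_one, φ1] at k2
    have : (2 : ℕ) • (φ (v * w) - (φ v + φ w)) = 0 := by
      linear_combination (norm := module) k1 - k2
    exact sub_eq_zero.1 (q_tors two_ne_zero this)
  have hpow : ∀ (r : Kˣ) (n : ℕ), φ (r ^ n) = n • φ r := by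
    intro r n
    induction n with
    | zero => simp [φ1]
    | succ n ih => rw [pow_succ, hmul, ih, succ_nsmul]
  have hz : ∀ r : Kˣ, φ r = 0 := by
    intro r
    have hn : orderOf r ≠ 0 := (isOfFinOrder_of_finite r).orderOf_pos.ne'
    have := hpow r (orderOf r)
    rw [pow_orderOf_eq_one, φ1] at this
    exact q_tors hn this.symm
  refine ⟨?_, ?_⟩
  · have hpos : ∀ a ∈ H.P, H.N a < H.N L.p → X.T (lr F L.p) (lr F π') (lr F a) = 0 := by
      intro a ha la
      have h := L.red_ne (H.ne_zero ha) la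
      have := hz (Units.mk0 _ h)
      simp only [hφ, Units.val_mk0, L.rp_red ha la] at this
      exact this
    refine lin_closure _ _ ?_
    rintro _ ⟨a, ha, la, rfl⟩
    rw [← h3] at la
    rcases H.sign a ha with h | h
    · exact hpos a h la
    · have := hpos (-a) h (by rwa [H.N_neg])
      rwa [lr, lr, lr, map_neg, X.neg3] at this
  · have := key 1 1
    rw [hz, hz, sub_zero, sub_zero, smul_zero, add_zero] at this
    exact this

/-- Two prime elements, continued. -/
lemma cross2 {π π' : R} (h : Irr H m π) (h' : Irr H m π') (hd : ¬ π ∣ π') :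
    ∀ u ∈ Vm H F m, X.T u (lr F π) (lr F π') = 0 := by
  intro u hu
  have hd' : ¬ π' ∣ π := fun hh => hd (h'.2.1.associated_of_dvd h.2.1 hh).dvd'
  have c1 := (cross X hT h h' hd).1 u hu
  have c2 := (cross X hT h' h hd').1 u hu
  have c3 := X.cyc u (lr F π) (lr F π')
  have c4 := X.sym (lr F π') u (lr F π)
  rw [c1, c4, c2, add_zero, add_zero] at c3
  exact c3

/-- Three prime elements. -/
lemma cross3 {π π' π'' : R} (h : Irr H m π) (h' : Irr H m π') (h'' : Irr H m π'')
    (hd : ¬ π ∣ π') (hd2 : ¬ π ∣ π'') (hd3 : ¬ π' ∣ π'') :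
    X.T (lr F π) (lr F π') (lr F π'') = 0 := by
  have hd2' : ¬ π'' ∣ π := fun hh => hd2 (h''.2.1.associated_of_dvd h.2.1 hh).dvd'
  have hd3' : ¬ π'' ∣ π' := fun hh => hd3 (h''.2.1.associated_of_dvd h'.2.1 hh).dvd'
  obtain ⟨l1, l2, l3, l4⟩ := loc X hT h
  obtain ⟨l1', l2', l3', l4'⟩ := loc X hT h'
  obtain ⟨l1'', l2'', l3'', l4''⟩ := loc X hT h''
  obtain ⟨c1, c2⟩ := cross X hT h h' hd
  obtain ⟨d1, d2⟩ := cross X hT h h'' hd2
  obtain ⟨e1, e2⟩ := cross X hT h'' h' hd3'
  obtain ⟨f1, f2⟩ := cross X hT h' h'' hd3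
  have g1 := cross2 X hT h' h'' hd3
  obtain ⟨h1, h2, h3⟩ := h
  obtain ⟨h1', h2', h3'⟩ := h'
  obtain ⟨h1'', h2'', h3''⟩ := h''
  obtain ⟨K, _, _, L, rfl⟩ := exists_loc H h1 h2
  have ρ0 : L.red π' ≠ 0 := fun h => hd ((L.red_eq_zero _).1 h)
  have ρ0' : L.red π'' ≠ 0 := fun h => hd2 ((L.red_eq_zero _).1 h)
  have s0 : L.red π'' / L.red π' ≠ 0 := div_ne_zero ρ0' ρ0
  set a := L.rp (L.red π'' / L.red π') with ha
  have a1 := L.rp_mem s0
  have a2 := L.rp_lt s0
  have a0 := L.rp_ne s0
  rw [← ha] at a1 a2 a0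
  obtain ⟨k, hk⟩ := L.exists_k (e := a * π') (f := π'') (by
    rw [map_mul, ha, L.red_rp s0, div_mul_cancel₀ _ ρ0])
  have p1 := L.one_lt
  have kl : H.N k < H.N L.p := by
    refine H.k_lt (H.mul_mem _ _ a1 h1') h1'' ?_ ?_ hk
    · rw [H.N_mul, h3', ← h3]
      exact Nat.mul_lt_mul_of_pos_right a2 (by omega)
    · rw [h3'', ← h3]
      exact lt_mul_of_one_lt_left (by omega) p1
  have k0 : k ≠ 0 := by
    rintro rfl
    rw [mul_zero, sub_eq_zero] at hk
    exact hd3 ⟨a, by rw [← hk]; ring⟩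
  rw [h3] at a2 kl
  have ma := lr_mem (F := F) H a0 a2
  have mk := lr_mem (F := F) H k0 kl
  have p0 := H.ne_zero L.mem
  have p0' := H.ne_zero h1'
  have p0'' := H.ne_zero h1''
  have Fa := am_ne (F := F) a0
  have Fk := am_ne (F := F) k0
  have Fp := am_ne (F := F) p0
  have Fp' := am_ne (F := F) p0'
  have Fp'' := am_ne (F := F) p0''
  have hkF : algebraMap R F a * algebraMap R F π' - algebraMap R F π'' =
      algebraMap R F L.p * algebraMap R F k := by
    rw [← map_mul, ← map_sub, hk, map_mul]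
  have z1 : 1 - algebraMap R F a * algebraMap R F π' / algebraMap R F π'' =
      -(algebraMap R F L.p * algebraMap R F k / algebraMap R F π'') := by
    rw [← hkF]; field_simp; ring
  have hst := X.st (algebraMap R F a * algebraMap R F π' / algebraMap R F π'')
    (div_ne_zero (mul_ne_zero Fa Fp') Fp'')
    (by rw [z1]; exact neg_ne_zero.2 (div_ne_zero (mul_ne_zero Fp Fk) Fp''))
  rw [z1, X.neg1, lg_div (mul_ne_zero Fp Fk) Fp'', lg_div (mul_ne_zero Fa Fp') Fp'',
    lg_mul Fp Fk, lg_mul Fa Fp'] at hst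
  change X.T (lr F L.p + lr F k - lr F π'') (lr F a + lr F π' - lr F π'')
    (lr F a + lr F π' - lr F π'') = 0 at hst
  have i1 := l1 _ ma _ ma
  have i2 := hT _ mk _ ma _ ma
  have i3 := l1'' _ ma _ ma
  have i4 := l2' _ mk _ ma
  have i5 := l2'' _ mk _ ma
  have i6 := l4' _ mk
  have i7 := l4'' _ mk
  have i8 := l3'' _ ma
  have i9 := c1 _ ma
  have i10 := d1 _ ma
  have i11 := e1 _ ma
  have i12 := g1 _ mk
  have j0 := X.cube (lr F π'')
  have j1 := X.cyc (lr F π'') (lr F π') (lr F π'')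
  have j2 := X.sym (lr F π'') (lr F π'') (lr F π')
  generalize lr F a = A at *
  generalize lr F k = B at *
  generalize lr F L.p = P at *
  generalize lr F π' = P' at *
  generalize lr F π'' = P'' at *
  simp only [map_add, map_sub, AddMonoidHom.add_apply, AddMonoidHom.sub_apply] at hst
  have s1 := X.sym P A P'
  have s2 := X.sym P A P''
  have s3 := X.sym P P'' P'
  have s4 := X.sym B A P'
  have s5 := X.sym B A P''
  have s6 := X.sym B P'' P'
  have s7 := X.sym P'' A P'
  have s8 := X.sym P'' A P''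
  have s9 := X.sym P'' P'' P'
  have key : (2 : ℕ) • X.T P P' P'' = 0 := by
    rw [s1, s2, s3, s4, s5, s6, s7, s8, s9, i1, i2, i3, i4, i5, i6, i7, i8, i9, i10, i11, i12,
      j0, c2, d2, e2] at hst
    rw [f2, s9] at j1
    linear_combination (norm := module) -hst + j1
  exact q_tors two_ne_zero key

end

end Helper11.Gon
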