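import Pool.Agent.Helper11.Gon.Tate
import Pool.Agent.Helper82.Gon3.FinGroup
import Pool.Agent.Helper82.Gon3.FiveAvg

set_option autoImplicit false

/-!
# The local step: one prime element
-/

noncomputable section

open scoped Classical

namespace Helper11.Gon

universe u v w x

variable {R : Type u} [CommRing R] [IsDomain R] {H : PN R} {F : Type x} [Field F] [Algebra R F]
  [IsFractionRing R F] {K : Type v} [Field K] {Q : Type w} [AddCommGroup Q] [Module ℚ Q]

/-- The first step: `T(p; u, v) = 0` for `u, v` in the group generated by the small elements. -/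
lemma T_p [Finite K] (L : Loc H K) (X : TF F Q)
    (hT : ∀ u ∈ Vm H F (H.N L.p), ∀ v ∈ Vm H F (H.N L.p), ∀ w ∈ Vm H F (H.N L.p),
      X.T u v w = 0) :
    ∀ u ∈ Vm H F (H.N L.p), ∀ v ∈ Vm H F (H.N L.p), X.T (lr F L.p) u v = 0 := by
  have key : ∀ x y : Kˣ, X.T (lr F L.p) (lr F (L.rp (x : K))) (lr F (L.rp (y : K))) = 0 := by
    refine Helper82.Gon3.fin_group (fun x : Kˣ => lr F (L.rp (x : K))) (X.T (lr F L.p))
      (fun v w => X.sym _ v w) (by rw [Units.val_one, L.rp_one, lr_one]) ?_
    intro x y s
    have hx := x.ne_zero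
    have hsx := (s / x).ne_zero
    have hy := y.ne_zero
    have hsy := (s / y).ne_zero
    set a := L.rp (x : K) with ha
    set b := L.rp ((s / x : Kˣ) : K) with hb
    set c := L.rp (y : K) with hc
    set d := L.rp ((s / y : Kˣ) : K) with hd
    have a1 := L.rp_mem hx
    have a2 := L.rp_lt hx
    have b1 := L.rp_mem hsx
    have b2 := L.rp_lt hsx
    have c1 := L.rp_mem hy
    have c2 := L.rp_lt hy
    have d1 := L.rp_mem hsy
    have d2 := L.rp_lt hsy
    have a0 := L.rp_ne hx
    have b0 := L.rp_ne hsx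
    have c0 := L.rp_ne hy
    have d0 := L.rp_ne hsy
    rw [← ha] at a1 a2 a0
    rw [← hb] at b1 b2 b0
    rw [← hc] at c1 c2 c0
    rw [← hd] at d1 d2 d0
    obtain ⟨k, hk⟩ := L.exists_k (e := a * b) (f := c * d) (by
      rw [map_mul, map_mul, ha, hb, hc, hd, L.red_rp hx, L.red_rp hsx, L.red_rp hy,
        L.red_rp hsy, ← Units.val_mul, ← Units.val_mul, mul_div_cancel, mul_div_cancel])
    by_cases hk0 : k = 0
    · rw [hk0, mul_zero, sub_eq_zero] at hk
      have h : lr F a + lr F b - lr F c - lr F d = 0 := by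
        rw [← lr_mul a0 b0, hk, lr_mul c0 d0]; abel
      rw [h, map_zero]
    · have kl := H.k_lt4 a1 b1 c1 d1 a2 b2 c2 d2 hk
      have ma := lr_mem (F := F) H a0 a2
      have mb := lr_mem (F := F) H b0 b2
      have mc := lr_mem (F := F) H c0 c2
      have md := lr_mem (F := F) H d0 d2
      have mk := lr_mem (F := F) H hk0 kl
      have p0 := H.ne_zero L.mem
      have Fa := am_ne (F := F) a0
      have Fb := am_ne (F := F) b0
      have Fc := am_ne (F := F) c0
      have Fd := am_ne (F := F) d0
      have Fk := am_ne (F := F) hk0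
      have Fp := am_ne (F := F) p0
      have hkF : algebraMap R F a * algebraMap R F b - algebraMap R F c * algebraMap R F d =
          algebraMap R F L.p * algebraMap R F k := by
        rw [← map_mul, ← map_mul, ← map_sub, hk, map_mul]
      have e1 : 1 - algebraMap R F c * algebraMap R F d /
          (algebraMap R F a * algebraMap R F b) = algebraMap R F L.p * algebraMap R F k /
          (algebraMap R F a * algebraMap R F b) := by
        rw [← hkF]; field_simp
      have hst := X.st (algebraMap R F c * algebraMap R F d /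
          (algebraMap R F a * algebraMap R F b))
        (div_ne_zero (mul_ne_zero Fc Fd) (mul_ne_zero Fa Fb))
        (by rw [e1]; exact div_ne_zero (mul_ne_zero Fp Fk) (mul_ne_zero Fa Fb))
      rw [e1, lg_div (mul_ne_zero Fp Fk) (mul_ne_zero Fa Fb),
        lg_div (mul_ne_zero Fc Fd) (mul_ne_zero Fa Fb), lg_mul Fp Fk, lg_mul Fa Fb,
        lg_mul Fc Fd] at hst
      change X.T (lr F L.p + lr F k - (lr F a + lr F b))
        (lr F c + lr F d - (lr F a + lr F b)) (lr F c + lr F d - (lr F a + lr F b)) = 0 at hst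
      have mh : lr F c + lr F d - (lr F a + lr F b) ∈ Vm H F (H.N L.p) :=
        sub_mem (add_mem mc md) (add_mem ma mb)
      have h2 := hT _ (sub_mem mk (add_mem ma mb)) _ mh _ mh
      have e : lr F L.p + lr F k - (lr F a + lr F b) =
        lr F L.p + (lr F k - (lr F a + lr F b)) := by abel
      rw [e, map_add, AddMonoidHom.add_apply, AddMonoidHom.add_apply, h2, add_zero] at hst
      have e' : lr F a + lr F b - lr F c - lr F d = -(lr F c + lr F d - (lr F a + lr F b)) := by
        abel
      rw [e']
      simp only [map_neg, AddMonoidHom.neg_apply, neg_neg]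
      exact hst
  have hpos : ∀ a ∈ H.P, ∀ b ∈ H.P, H.N a < H.N L.p → H.N b < H.N L.p →
      X.T (lr F L.p) (lr F a) (lr F b) = 0 := by
    intro a ha b hb la lb
    have h := L.red_ne (H.ne_zero ha) la
    have h' := L.red_ne (H.ne_zero hb) lb
    have := key (Units.mk0 _ h) (Units.mk0 _ h')
    simp only [Units.val_mk0, L.rp_red ha la, L.rp_red hb lb] at this
    exact this
  refine bil_closure (X.T (lr F L.p)) _ _ ?_
  rintro _ ⟨a, ha, la, rfl⟩ _ ⟨b, hb, lb, rfl⟩
  have h1 : ∀ b ∈ H.P, H.N b < H.N L.p → X.T (lr F L.p) (lr F a) (lr F b) = 0 := by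
    intro b hb lb
    rcases H.sign a ha with h | h
    · exact hpos a h b hb la lb
    · have := hpos (-a) h b hb (by rwa [H.N_neg]) lb
      rwa [lr, lr, map_neg, X.neg2] at this
  rcases H.sign b hb with h | h
  · exact h1 b h lb
  · have := h1 (-b) h (by rwa [H.N_neg])
    rwa [lr, lr, lr, map_neg, X.neg3] at this

end Helper11.Gon
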