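import Pool.Agent.Helper11.Gon.Global

set_option autoImplicit false

/-!
# The trilinear theorem for the fraction field of a ring with a norm and positive elements
-/

noncomputable section

open scoped Classical

namespace Helper11.Gon

universe u v w x

section
variable {R : Type u} [CommRing R] [IsDomain R] [IsPrincipalIdealRing R] (H : PN R)
  {F : Type x} [Field F] [Algebra R F] [IsFractionRing R F]
  {Q : Type w} [AddCommGroup Q] [Module ℚ Q]

section
variable {H}
/-- Replacement of a generator. -/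
lemma repl (Q : Type w) [AddCommGroup Q] [Module ℚ Q] {m : ℕ} {a : R} (ha : a ≠ 0)
    (h : H.N a < m + 1) :
    (∀ f : Additive Fˣ →+ Q, f (lr F a) = 0) ∨
      ∃ g : Additive Fˣ, (g ∈ Vm H F m ∨ ∃ π, Irr H m π ∧ g = lr F π) ∧
        ∀ f : Additive Fˣ →+ Q, f (lr F a) = f g := by
  rcases trichotomy H (F := F) ha (m := m) (by omega) with h1 | h1 | ⟨h1, h2⟩
  · exact Or.inl fun f => hom_unit H f h1
  · exact Or.inr ⟨_, Or.inl h1, fun f => rfl⟩
  · obtain ⟨b, hb, hbb, hf⟩ := pos_assoc (F := F) (Q := Q) H ha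
    refine Or.inr ⟨lr F b, Or.inr ⟨b, ⟨hb, ?_, ?_⟩, rfl⟩, fun f => (hf f).symm⟩
    · rcases hbb with rfl | rfl
      · exact h1
      · exact irr_neg h1
    · rcases hbb with rfl | rfl
      · exact h2
      · rw [H.N_neg]; exact h2

variable (X : TF F Q) {m : ℕ}
  (hT : ∀ u ∈ Vm H F m, ∀ v ∈ Vm H F m, ∀ w ∈ Vm H F m, X.T u v w = 0)
include hT

lemma three {π π' π'' : R} (h : Irr H m π) (h' : Irr H m π') (h'' : Irr H m π'') :
    X.T (lr F π) (lr F π') (lr F π'') = 0 := by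
  have p0 := H.ne_zero h.1
  have p0' := H.ne_zero h'.1
  have base : ∀ {π π' : R}, Irr H m π → Irr H m π' →
      X.T (lr F π) (lr F π) (lr F π') = 0 := by
    intro π π' h h'
    have p0 := H.ne_zero h.1
    by_cases hd : π ∣ π'
    · rw [hom_assoc H (X.T (lr F π) (lr F π)) p0 (h.2.1.associated_of_dvd h'.2.1 hd)]
      exact X.cube _
    · have hd' : ¬ π' ∣ π := fun hh => hd (h'.2.1.associated_of_dvd h.2.1 hh).dvd'
      have c1 := (cross X hT h' h hd').2
      have c2 := X.cyc (lr F π') (lr F π) (lr F π)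
      have c3 := X.sym (lr F π) (lr F π) (lr F π')
      have : (2 : ℕ) • X.T (lr F π) (lr F π) (lr F π') = 0 := by
        linear_combination (norm := module) c2 - c1 + c3
      exact q_tors two_ne_zero this
  by_cases hd : π ∣ π'
  · have e := hom_assoc H ((X.T (lr F π)).flip (lr F π'')) p0
      (h.2.1.associated_of_dvd h'.2.1 hd)
    simp only [AddMonoidHom.flip_apply] at e
    rw [e]
    exact base h h''
  by_cases hd2 : π ∣ π''
  · rw [hom_assoc H (X.T (lr F π) (lr F π')) p0 (h.2.1.associated_of_dvd h''.2.1 hd2), X.sym]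
    exact base h h'
  by_cases hd3 : π' ∣ π''
  · rw [hom_assoc H (X.T (lr F π) (lr F π')) p0' (h'.2.1.associated_of_dvd h''.2.1 hd3)]
    exact (cross X hT h h' hd).2
  exact cross3 X hT h h' h'' hd hd2 hd3

lemma two_left {π π' : R} (h : Irr H m π) (h' : Irr H m π') {v : Additive Fˣ}
    (hv : v ∈ Vm H F m) : X.T (lr F π) (lr F π') v = 0 := by
  have p0 := H.ne_zero h.1
  by_cases hd : π ∣ π'
  · have e := hom_assoc H ((X.T (lr F π)).flip v) p0
      (h.2.1.associated_of_dvd h'.2.1 hd)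
    simp only [AddMonoidHom.flip_apply] at e
    rw [e]
    exact (loc X hT h).2.2.1 v hv
  · exact (cross X hT h h' hd).1 v hv

lemma two_right {π π' : R} (h : Irr H m π) (h' : Irr H m π') {v : Additive Fˣ}
    (hv : v ∈ Vm H F m) : X.T v (lr F π) (lr F π') = 0 := by
  have p0 := H.ne_zero h.1
  by_cases hd : π ∣ π'
  · rw [hom_assoc H (X.T v (lr F π)) p0 (h.2.1.associated_of_dvd h'.2.1 hd)]
    exact (loc X hT h).2.2.2 v hv
  · exact cross2 X hT h h' hd v hv

lemma all_gen {g1 g2 g3 : Additive Fˣ} (h1 : g1 ∈ Vm H F m ∨ ∃ π, Irr H m π ∧ g1 = lr F π)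
    (h2 : g2 ∈ Vm H F m ∨ ∃ π, Irr H m π ∧ g2 = lr F π)
    (h3 : g3 ∈ Vm H F m ∨ ∃ π, Irr H m π ∧ g3 = lr F π) : X.T g1 g2 g3 = 0 := by
  rcases h1 with h1 | ⟨π1, i1, rfl⟩ <;> rcases h2 with h2 | ⟨π2, i2, rfl⟩ <;>
    rcases h3 with h3 | ⟨π3, i3, rfl⟩
  · exact hT _ h1 _ h2 _ h3
  · rw [X.sym]; exact (loc X hT i3).2.1 _ h1 _ h2
  · exact (loc X hT i2).2.1 _ h1 _ h3
  · exact two_right X hT i2 i3 h1
  · exact (loc X hT i1).1 _ h2 _ h3
  · rw [X.sym]; exact two_left X hT i1 i3 h2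
  · exact two_left X hT i1 i2 h3
  · exact three X hT i1 i2 i3

end

/-- The form vanishes on the elements of norm less than `m`. -/
theorem vm_zero (X : TF F Q) (m : ℕ) : ∀ u ∈ Vm H F m, ∀ v ∈ Vm H F m, ∀ w ∈ Vm H F m,
    X.T u v w = 0 := by
  induction m with
  | zero =>
    intro u hu v _ w _
    refine lin_closure ((X.T.flip v).flip w) _ ?_ u hu
    rintro x ⟨a, _, h, _⟩
    exact absurd h (Nat.not_lt_zero _)
  | succ m ih =>
    refine tri_closure X.T _ ?_
    rintro _ ⟨a, ha, la, rfl⟩ _ ⟨b, hb, lb, rfl⟩ _ ⟨c, hc, lc, rfl⟩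
    rcases repl (F := F) Q hc lc with h3 | ⟨g3, h3, e3⟩
    · exact h3 _
    rw [e3]
    rcases repl (F := F) Q hb lb with h2 | ⟨g2, h2, e2⟩
    · exact h2 ((X.T (lr F a)).flip g3)
    have e2' := e2 ((X.T (lr F a)).flip g3)
    simp only [AddMonoidHom.flip_apply] at e2'
    rw [e2']
    rcases repl (F := F) Q ha la with h1 | ⟨g1, h1, e1⟩
    · exact h1 ((X.T.flip g2).flip g3)
    have e1' := e1 ((X.T.flip g2).flip g3)
    simp only [AddMonoidHom.flip_apply] at e1'
    rw [e1']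
    exact all_gen X ih h1 h2 h3

include H in
/-- The trilinear theorem. -/
theorem form_zero (X : TF F Q) (u v w : Additive Fˣ) : X.T u v w = 0 := by
  have hmem : ∀ u : Additive Fˣ, ∃ m : ℕ, u ∈ Vm H F m := by
    intro u
    obtain ⟨a, b, ha, hb, rfl⟩ := exists_nd R u
    exact ⟨max (H.N a) (H.N b) + 1, sub_mem (lr_mem H ha (by omega)) (lr_mem H hb (by omega))⟩
  obtain ⟨l, hl⟩ := hmem u
  obtain ⟨m, hm⟩ := hmem v
  obtain ⟨n, hn⟩ := hmem w
  exact vm_zero H X (max l (max m n)) _ (Vm_mono H (by omega) hl) _ (Vm_mono H (by omega) hm) _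
    (Vm_mono H (by omega) hn)

include H in
/-- The bilinear theorem (Tate). -/
theorem form2_zero (A : AF F Q) (h : ∀ x : F, x ≠ 0 → 1 - x ≠ 0 → A.O (lg x) (lg (1 - x)) = 0)
    (u v : Additive Fˣ) : A.O u v = 0 := by
  have hmem : ∀ u : Additive Fˣ, ∃ m : ℕ, u ∈ Vm H F m := by
    intro u
    obtain ⟨a, b, ha, hb, rfl⟩ := exists_nd R u
    exact ⟨max (H.N a) (H.N b) + 1, sub_mem (lr_mem H ha (by omega)) (lr_mem H hb (by omega))⟩
  obtain ⟨l, hl⟩ := hmem u
  obtain ⟨m, hm⟩ := hmem v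
  refine tate H A (max l m) ?_ (max l m) le_rfl _ (Vm_mono H (by omega) hl) _
    (Vm_mono H (by omega) hm)
  intro a b c ρ k ha hb hc hρ _ _ _ _ k0 _ e
  have a0 := H.ne_zero ha
  have b0 := H.ne_zero hb
  have c0 := H.ne_zero hc
  have ρ0 := H.ne_zero hρ
  have Fa := am_ne (F := F) a0
  have Fb := am_ne (F := F) b0
  have Fc := am_ne (F := F) c0
  have Fρ := am_ne (F := F) ρ0
  have Fk := am_ne (F := F) k0
  have Fab := am_ne (F := F) (mul_ne_zero a0 b0)
  have hF : algebraMap R F a * algebraMap R F b - algebraMap R F c =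
      algebraMap R F ρ * algebraMap R F k := by
    rw [← map_mul, ← map_sub, e, map_mul]
  have e1 : 1 - algebraMap R F c / algebraMap R F (a * b) =
      algebraMap R F ρ * algebraMap R F k / algebraMap R F (a * b) := by
    rw [← hF, map_mul]; field_simp
  have := h (algebraMap R F c / algebraMap R F (a * b)) (div_ne_zero Fc Fab)
    (by rw [e1]; exact div_ne_zero (mul_ne_zero Fρ Fk) Fab)
  rw [e1, lg_div Fc Fab, lg_div (mul_ne_zero Fρ Fk) Fab, lg_mul Fρ Fk, map_mul,
    lg_mul Fa Fb] at this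
  exact this

end

end Helper11.Gon
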