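import Pool.Agent.Helper11.Gon.Local

set_option autoImplicit false

/-!
# The alternating form attached to a prime element
-/

noncomputable section

open scoped Classical

namespace Helper11.Gon

universe u v w x

section
variable {F : Type x} [Field F] {Q : Type w} [AddCommGroup Q] [Module ℚ Q]

/-- The alternating form `T(v; P, w) - T(w; P, v) + ν(w) T(P; P, v) - ν(v) T(P; P, w)`. -/
def Om (X : TF F Q) (P : Additive Fˣ) (ν : Additive Fˣ →+ ℤ) : AF F Q where
  O := AddMonoidHom.mk' (fun v => AddMonoidHom.mk' (fun w =>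
      X.T v P w - X.T w P v + ν w • X.T P P v - ν v • X.T P P w)
      (by
        intro a b
        simp only [map_add, AddMonoidHom.add_apply]
        module))
    (by
      intro a b
      refine DFunLike.ext _ _ fun w => ?_
      simp only [AddMonoidHom.mk'_apply, map_add, AddMonoidHom.add_apply]
      module)
  alt v := by
    simp only [AddMonoidHom.mk'_apply]
    module

lemma Om_apply (X : TF F Q) (P : Additive Fˣ) (ν : Additive Fˣ →+ ℤ) (v w : Additive Fˣ) :
    (Om X P ν).O v w = X.T v P w - X.T w P v + ν w • X.T P P v - ν v • X.T P P w := rfl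

variable (X : TF F Q) (P : Additive Fˣ) (ν : Additive Fˣ →+ ℤ) (V : AddSubgroup (Additive Fˣ))
  (hT : ∀ u ∈ V, ∀ v ∈ V, ∀ w ∈ V, X.T u v w = 0) (hP : ∀ u ∈ V, ∀ v ∈ V, X.T P u v = 0)
  (hν : ∀ u ∈ V, ν u = 0) (hνP : ν P = 1)

include hT hP hν hνP

lemma Om_key {u v : Additive Fˣ} (hu : u ∈ V) (hv : v ∈ V) (i j : ℤ)
    (hst : X.T (v + j • P) (u + i • P) (u + i • P) = 0) :
    i • (Om X P ν).O (u + i • P) (v + j • P) = 0 := by
  have h1 := hP _ hu _ hv
  have h1' := hP _ hv _ hu
  have h2 := hP _ hu _ hu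
  have h3 := hT _ hv _ hu _ hu
  have h4 := X.cube P
  have c1 := X.cyc v P u
  have c2 := X.cyc v P P
  have c3 := X.cyc u P P
  have s1 := X.sym u v P
  have s1' := X.sym v u P
  have s2 := X.sym P v P
  have s3 := X.sym P u P
  rw [Om_apply]
  have n1 : ν (v + j • P) = j := by
    rw [map_add, map_zsmul, hν v hv, hνP]; simp
  have n2 : ν (u + i • P) = i := by
    rw [map_add, map_zsmul, hν u hu, hνP]; simp
  rw [n1, n2]
  simp only [map_add, map_zsmul, AddMonoidHom.add_apply, AddMonoidHom.smul_apply, smul_add] at hst ⊢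
  linear_combination (norm := module) -hst + h3 + i • s1' + j • h2 + (i * j) • s3 +
    (i * i * j) • h4 + i • (c1 - h1 - s1) + (i * j) • (c3 - s3)

/-- `Ω(x, 1 - x) = 0` if `P` occurs in `x` or in `1 - x`. -/
lemma Om_inv {x : F} (hx : x ≠ 0) (hx1 : 1 - x ≠ 0) {u v : Additive Fˣ} (hu : u ∈ V) (hv : v ∈ V)
    {i j : ℤ} (e1 : lg x = u + i • P) (e2 : lg (1 - x) = v + j • P) (hij : i ≠ 0 ∨ j ≠ 0) :
    (Om X P ν).O (lg x) (lg (1 - x)) = 0 := by
  rcases hij with h | h
  · have hst := X.st x hx hx1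
    rw [e1, e2] at hst
    have := Om_key X P ν V hT hP hν hνP hu hv i j hst
    rw [e1, e2]
    exact q_tors_int h this
  · have hst := X.st (1 - x) hx1 (by rw [sub_sub_cancel]; exact hx)
    rw [sub_sub_cancel, e1, e2] at hst
    have := Om_key X P ν V hT hP hν hνP hv hu j i hst
    rw [AF.swap, e1, e2, q_tors_int h this, neg_zero]

omit hT in
/-- If `Ω` vanishes then so does `T`. -/
lemma of_Om (h : ∀ u ∈ V, ∀ v ∈ V, (Om X P ν).O u v = 0)
    (h' : ∀ v ∈ V, (Om X P ν).O v P = 0) :
    (∀ u ∈ V, ∀ v ∈ V, X.T u P v = 0) ∧ (∀ v ∈ V, X.T P P v = 0) ∧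
      (∀ v ∈ V, X.T v P P = 0) := by
  have a : ∀ v ∈ V, X.T v P P = 0 := by
    intro v hv
    have := h' v hv
    rw [Om_apply, hν v hv, hνP, zero_smul, one_smul, sub_zero, sub_add_cancel] at this
    exact this
  refine ⟨fun u hu v hv => ?_, fun v hv => ?_, a⟩
  · have e := h u hu v hv
    rw [Om_apply, hν v hv, hν u hu, zero_smul, zero_smul] at e
    have h1 := hP _ hu _ hv
    have c1 := X.cyc v P u
    have s1 := X.sym u v P
    have s2 := X.sym P v u
    have h3 : (2 : ℕ) • X.T u P v = 0 := by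
      linear_combination (norm := module) e + c1 - h1 - s1
    exact q_tors two_ne_zero h3
  · have e := a v hv
    have c2 := X.cyc v P P
    have s2 := X.sym P v P
    have h3 : (2 : ℕ) • X.T P P v = 0 := by
      linear_combination (norm := module) c2 - e - s2
    exact q_tors two_ne_zero h3

end

end Helper11.Gon
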