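import Pool.Agent.Helper11.Gon.Sym2

set_option autoImplicit false

/-!
# The order at a prime element, and the local theorem
-/

noncomputable section

open scoped Classical

namespace Helper11.Gon

universe u v w x

section ord
variable {R : Type u} [CommRing R] [IsDomain R] {F : Type x} [Field F]
  [Algebra R F] [IsFractionRing R F]

variable (R) in
lemma exists_nd (v : Additive Fˣ) : ∃ a b : R, a ≠ 0 ∧ b ≠ 0 ∧ v = lr F a - lr F b := by
  obtain ⟨a, b, hb, h⟩ := IsFractionRing.div_surjective (A := R) ((v.toMul : Fˣ) : F)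
  have hb0 : algebraMap R F b ≠ 0 := IsFractionRing.to_map_ne_zero_of_mem_nonZeroDivisors hb
  have ha0 : algebraMap R F a ≠ 0 := by
    intro h0
    rw [h0, zero_div] at h
    exact v.toMul.ne_zero h.symm
  refine ⟨a, b, fun h => ha0 (by rw [h, map_zero]), fun h => hb0 (by rw [h, map_zero]), ?_⟩
  rw [lr, lr, ← lg_div ha0 hb0, h, lg_toMul]

variable [IsPrincipalIdealRing R] (p : R) (hp : Irreducible p)

include hp in
lemma mult_mul {a b : R} (ha : a ≠ 0) (hb : b ≠ 0) :
    multiplicity p (a * b) = multiplicity p a + multiplicity p b := by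
  refine multiplicity_mul hp.prime ?_
  exact FiniteMultiplicity.of_not_isUnit hp.not_isUnit (mul_ne_zero ha hb)

/-- The order at `p`. -/
def ordf (v : Additive Fˣ) : ℤ :=
  (multiplicity p (exists_nd R v).choose : ℤ) -
    (multiplicity p (exists_nd R v).choose_spec.choose : ℤ)

include hp in
lemma ordf_eq {a b : R} (ha : a ≠ 0) (hb : b ≠ 0) {v : Additive Fˣ} (hv : v = lr F a - lr F b) :
    ordf p v = (multiplicity p a : ℤ) - multiplicity p b := by
  obtain ⟨hc, hd, h⟩ := (exists_nd R v).choose_spec.choose_spec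
  rw [ordf]
  generalize (exists_nd R v).choose_spec.choose = d at h hd ⊢
  generalize (exists_nd R v).choose = c at h hc ⊢
  rw [hv] at h
  have h1 : lr F (a * d) = lr F (c * b) := by
    rw [lr_mul ha hd, lr_mul hc hb]
    have := sub_eq_sub_iff_add_eq_add.1 h
    exact this
  have h2 : a * d = c * b := by
    have ha' := am_ne (F := F) (mul_ne_zero ha hd)
    have hb' := am_ne (F := F) (mul_ne_zero hc hb)
    rw [lr, lr, lg, lg, dif_neg ha', dif_neg hb'] at h1
    have h3 := congrArg Units.val (Additive.ofMul.injective h1)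
    exact IsFractionRing.injective R F h3
  have h3 := congrArg (multiplicity p) h2
  rw [mult_mul p hp ha hd, mult_mul p hp hc hb] at h3
  omega

/-- The order at `p` as a homomorphism. -/
def ordH : Additive Fˣ →+ ℤ := AddMonoidHom.mk' (ordf (R := R) p) (by
  intro v w
  obtain ⟨a, b, ha, hb, hv⟩ := exists_nd R v
  obtain ⟨c, d, hc, hd, hw⟩ := exists_nd R w
  rw [ordf_eq p hp ha hb hv, ordf_eq p hp hc hd hw,
    ordf_eq p hp (mul_ne_zero ha hc) (mul_ne_zero hb hd) (by
      rw [hv, hw, lr_mul ha hc, lr_mul hb hd]; abel), mult_mul p hp ha hc, mult_mul p hp hb hd]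
  push_cast
  ring)

lemma ordH_lr {a : R} (ha : a ≠ 0) : ordH (F := F) p hp (lr F a) = multiplicity p a := by
  change ordf p (lr F a) = _
  rw [ordf_eq p hp ha one_ne_zero (by rw [lr_one, sub_zero])]
  have : multiplicity p (1 : R) = 0 := multiplicity_eq_zero.2 (by
    intro h; exact hp.not_isUnit (isUnit_of_dvd_one h))
  rw [this]; simp

lemma ordH_lr_zero {a : R} (ha : a ≠ 0) (h : ¬ p ∣ a) : ordH (F := F) p hp (lr F a) = 0 := by
  rw [ordH_lr p hp ha, multiplicity_eq_zero.2 h]; rfl

lemma ordH_self : ordH (F := F) p hp (lr F p) = 1 := by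
  rw [ordH_lr p hp hp.ne_zero]
  have : multiplicity p p = 1 := multiplicity_self
  rw [this]; rfl

end ord

section
variable {R : Type u} [CommRing R] [IsDomain R] [IsPrincipalIdealRing R] {H : PN R}
  {F : Type x} [Field F] [Algebra R F]
  [IsFractionRing R F] {K : Type v} [Field K] {Q : Type w} [AddCommGroup Q] [Module ℚ Q]

/-- The local theorem. -/
theorem local_zero [Finite K] (L : Loc H K) (hp : Irreducible L.p) (X : TF F Q)
    (hT : ∀ u ∈ Vm H F (H.N L.p), ∀ v ∈ Vm H F (H.N L.p), ∀ w ∈ Vm H F (H.N L.p),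
      X.T u v w = 0) :
    (∀ u ∈ Vm H F (H.N L.p), ∀ v ∈ Vm H F (H.N L.p), X.T (lr F L.p) u v = 0) ∧
    (∀ u ∈ Vm H F (H.N L.p), ∀ v ∈ Vm H F (H.N L.p), X.T u (lr F L.p) v = 0) ∧
    (∀ v ∈ Vm H F (H.N L.p), X.T (lr F L.p) (lr F L.p) v = 0) ∧
    (∀ v ∈ Vm H F (H.N L.p), X.T v (lr F L.p) (lr F L.p) = 0) := by
  have hP := T_p L X hT
  refine ⟨hP, ?_⟩
  set ν : Additive Fˣ →+ ℤ := ordH (F := F) L.p hp with hν'
  have hν : ∀ u ∈ Vm H F (H.N L.p), ν u = 0 := by
    refine lin_closure ν _ ?_
    rintro _ ⟨a, ha, la, rfl⟩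
    exact ordH_lr_zero L.p hp ha (H.not_dvd ha la)
  have hνP : ν (lr F L.p) = 1 := ordH_self L.p hp
  set A := Om X (lr F L.p) ν with hA'
  have hA : Inv1 L A := by
    intro x hx u hu v hv e1 e2 hx1
    exact Om_inv X (lr F L.p) ν (Vm H F (H.N L.p)) hT hP hν hνP hx hx1 hu hv (i := 0) (j := 1)
      (by rw [e1, zero_smul, add_zero]) (by rw [e2, one_smul, add_comm]) (Or.inr one_ne_zero)
  have h1 := tate H A (H.N L.p) (fun a b c ρ k ha hb hc hρ la lb lc lρ k0 lk h =>
    St_abc hA ha hb hc (H.ne_zero hρ) la lb lc lρ k0 lk h) (H.N L.p) le_rfl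
  have h2 := hom_step L A h1 (by
    intro a b c k ha hb hc la lb lc k0 lk h
    have a0 := H.ne_zero ha
    have b0 := H.ne_zero hb
    have c0 := H.ne_zero hc
    have p0 := H.ne_zero L.mem
    have Fa := am_ne (F := F) a0
    have Fb := am_ne (F := F) b0
    have Fc := am_ne (F := F) c0
    have Fp := am_ne (F := F) p0
    have Fk := am_ne (F := F) k0
    have fa := lr_mem (F := F) H a0 la
    have fb := lr_mem (F := F) H b0 lb
    have fc := lr_mem (F := F) H c0 lc
    have fk := lr_mem (F := F) H k0 lk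
    have Fab := am_ne (F := F) (mul_ne_zero a0 b0)
    have hF : algebraMap R F a * algebraMap R F b - algebraMap R F c =
        algebraMap R F L.p * algebraMap R F k := by
      rw [← map_mul, ← map_sub, h, map_mul]
    have e1 : 1 - algebraMap R F c / algebraMap R F (a * b) =
        algebraMap R F L.p * algebraMap R F k / algebraMap R F (a * b) := by
      rw [← hF, map_mul]; field_simp
    have e2 : lg (algebraMap R F c / algebraMap R F (a * b)) = lr F c - (lr F a + lr F b) := by
      rw [lg_div Fc Fab, map_mul, lg_mul Fa Fb]; rfl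
    have e3 : lg (1 - algebraMap R F c / algebraMap R F (a * b)) =
        lr F L.p + lr F k - (lr F a + lr F b) := by
      rw [e1, lg_div (mul_ne_zero Fp Fk) Fab, lg_mul Fp Fk, map_mul, lg_mul Fa Fb]; rfl
    have := hA (algebraMap R F c / algebraMap R F (a * b)) (div_ne_zero Fc Fab)
      (lr F c - (lr F a + lr F b)) (sub_mem fc (add_mem fa fb))
      (lr F k - (lr F a + lr F b)) (sub_mem fk (add_mem fa fb)) e2 (by rw [e3, add_sub_assoc])
      (by rw [e1]; exact div_ne_zero (mul_ne_zero Fp Fk) Fab)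
    rwa [e2, e3] at this)
  exact of_Om X (lr F L.p) ν (Vm H F (H.N L.p)) hP hν hνP h1 h2

end

end Helper11.Gon
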