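import Pool.Agent.Helper11.Gon.Five

set_option autoImplicit false

/-!
# Rings with a norm and positive elements
-/

noncomputable section

open scoped Classical

namespace Helper11.Gon

universe u v w x

namespace PN

variable {R : Type u} [CommRing R] [IsDomain R] (H : PN R)

lemma N_zero : H.N 0 = 0 := (H.N_eq_zero 0).2 rfl

lemma N_ne {a : R} (h : a ≠ 0) : H.N a ≠ 0 := fun h' => h ((H.N_eq_zero a).1 h')

lemma N_one : H.N 1 = 1 := by
  have h := H.N_mul 1 1
  rw [mul_one] at h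
  have h0 := H.N_ne (one_ne_zero (α := R))
  exact (Nat.mul_eq_left h0).1 h.symm

lemma N_neg (a : R) : H.N (-a) = H.N a := by
  have h := H.N_mul (-1) (-1)
  rw [neg_mul_neg, mul_one, H.N_one] at h
  have h1 : H.N (-1) = 1 := by
    have := Nat.eq_one_of_mul_eq_one_right h.symm
    exact this
  have := H.N_mul (-1) a
  rwa [neg_one_mul, h1, one_mul] at this

lemma ne_zero {a : R} (h : a ∈ H.P) : a ≠ 0 := fun h' => H.zero_notMem (h' ▸ h)

lemma not_dvd {a b : R} (ha : a ≠ 0) (h : H.N a < H.N b) : ¬ b ∣ a := by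
  rintro ⟨c, rfl⟩
  have hc : c ≠ 0 := right_ne_zero_of_mul ha
  rw [H.N_mul] at h
  have := H.N_ne hc
  have h1 : H.N b * 1 ≤ H.N b * H.N c := Nat.mul_le_mul_left _ (Nat.one_le_iff_ne_zero.2 this)
  omega

lemma sub_lt {a b : R} {m : ℕ} (ha : a ∈ H.P) (hb : b ∈ H.P) (h1 : H.N a < m) (h2 : H.N b < m) :
    H.N (a - b) < m :=
  lt_of_le_of_lt (H.N_sub a b ha hb) (max_lt h1 h2)

lemma k_lt {e f k p : R} (he : e ∈ H.P) (hf : f ∈ H.P) (h1 : H.N e < H.N p * H.N p)
    (h2 : H.N f < H.N p * H.N p) (h : e - f = p * k) : H.N k < H.N p := by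
  have := H.sub_lt he hf h1 h2
  rw [h, H.N_mul] at this
  exact lt_of_mul_lt_mul_left this (Nat.zero_le _)

lemma k_lt4 {a b c d k p : R} (ha : a ∈ H.P) (hb : b ∈ H.P) (hc : c ∈ H.P) (hd : d ∈ H.P)
    (la : H.N a < H.N p) (lb : H.N b < H.N p) (lc : H.N c < H.N p) (ld : H.N d < H.N p)
    (h : a * b - c * d = p * k) : H.N k < H.N p := by
  refine H.k_lt (H.mul_mem _ _ ha hb) (H.mul_mem _ _ hc hd) ?_ ?_ h
  · rw [H.N_mul]; exact Nat.mul_lt_mul'' la lb
  · rw [H.N_mul]; exact Nat.mul_lt_mul'' lc ld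

lemma k_lt3 {a b c k p : R} (ha : a ∈ H.P) (hb : b ∈ H.P) (hc : c ∈ H.P)
    (la : H.N a < H.N p) (lb : H.N b < H.N p) (lc : H.N c < H.N p)
    (h : a * b - c = p * k) : H.N k < H.N p := by
  refine H.k_lt (H.mul_mem _ _ ha hb) hc ?_ ?_ h
  · rw [H.N_mul]; exact Nat.mul_lt_mul'' la lb
  · have : 1 ≤ H.N p := by omega
    calc H.N c < H.N p := lc
      _ = H.N p * 1 := (mul_one _).symm
      _ ≤ H.N p * H.N p := Nat.mul_le_mul_left _ this

end PN

/-- A prime element `p ∈ P` with its residue field `K`. -/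
structure Loc {R : Type u} [CommRing R] (H : PN R) (K : Type v) [Field K] where
  p : R
  mem : p ∈ H.P
  red : R →+* K
  red_eq_zero : ∀ a, red a = 0 ↔ p ∣ a
  surj : Function.Surjective red

namespace Loc

variable {R : Type u} [CommRing R] [IsDomain R] {H : PN R} {K : Type v} [Field K] (L : Loc H K)

lemma exists_rp (r : K) (hr : r ≠ 0) : ∃ a, a ∈ H.P ∧ H.N a < H.N L.p ∧ L.red a = r := by
  obtain ⟨b, rfl⟩ := L.surj r
  have hb : ¬ L.p ∣ b := fun h => hr ((L.red_eq_zero b).2 h)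
  obtain ⟨a, ha, hlt, hd⟩ := H.rep L.p L.mem b hb
  refine ⟨a, ha, hlt, ?_⟩
  have := (L.red_eq_zero _).2 hd
  rw [map_sub, sub_eq_zero] at this
  exact this.symm

/-- The representative of a nonzero residue class. -/
def rp (r : K) : R := if hr : r ≠ 0 then (L.exists_rp r hr).choose else 0

lemma rp_spec {r : K} (hr : r ≠ 0) :
    L.rp r ∈ H.P ∧ H.N (L.rp r) < H.N L.p ∧ L.red (L.rp r) = r := by
  rw [rp, dif_pos hr]
  exact (L.exists_rp r hr).choose_spec

lemma rp_mem {r : K} (hr : r ≠ 0) : L.rp r ∈ H.P := (L.rp_spec hr).1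
lemma rp_lt {r : K} (hr : r ≠ 0) : H.N (L.rp r) < H.N L.p := (L.rp_spec hr).2.1
lemma red_rp {r : K} (hr : r ≠ 0) : L.red (L.rp r) = r := (L.rp_spec hr).2.2
lemma rp_ne {r : K} (hr : r ≠ 0) : L.rp r ≠ 0 := H.ne_zero (L.rp_mem hr)

lemma red_ne {a : R} (ha : a ≠ 0) (h : H.N a < H.N L.p) : L.red a ≠ 0 :=
  fun h' => H.not_dvd ha h ((L.red_eq_zero a).1 h')

/-- Two small positive elements in the same class are equal. -/
lemma red_inj {a b : R} (ha : a ∈ H.P) (hb : b ∈ H.P) (la : H.N a < H.N L.p)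
    (lb : H.N b < H.N L.p) (h : L.red a = L.red b) : a = b := by
  by_contra hab
  refine L.red_ne (sub_ne_zero.2 hab) (H.sub_lt ha hb la lb) ?_
  rw [map_sub, h, sub_self]

lemma rp_red {a : R} (ha : a ∈ H.P) (la : H.N a < H.N L.p) : L.rp (L.red a) = a := by
  have h := L.red_ne (H.ne_zero ha) la
  exact L.red_inj (L.rp_mem h) ha (L.rp_lt h) la (L.red_rp h)

lemma one_lt : 1 < H.N L.p := by
  rcases Nat.lt_trichotomy (H.N L.p) 1 with h | h | h
  · exact absurd (Nat.lt_one_iff.1 h) (H.N_ne (H.ne_zero L.mem))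
  · have := H.N_unit _ h
    have h1 := (L.red_eq_zero 1).2 this.dvd
    rw [map_one] at h1
    exact absurd h1 one_ne_zero
  · exact h

lemma N_one_lt : H.N 1 < H.N L.p := by rw [H.N_one]; exact L.one_lt

lemma rp_one : L.rp 1 = 1 := by
  have := L.rp_red H.one_mem L.N_one_lt
  rwa [map_one] at this

/-- `a b ≡ c d` gives `a b - c d = p k`. -/
lemma exists_k {e f : R} (h : L.red e = L.red f) : ∃ k, e - f = L.p * k := by
  have h1 : L.red (e - f) = 0 := by rw [map_sub, h, sub_self]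
  exact (L.red_eq_zero _).1 h1

end Loc

section
variable {R : Type u} [CommRing R] [IsDomain R] (H : PN R) (F : Type x) [Field F] [Algebra R F]
  [IsFractionRing R F]

/-- The class of `a ∈ R` in `F^*`. -/
def lr (a : R) : Additive Fˣ := lg (algebraMap R F a)

/-- The subgroup of `F^*` generated by the elements of `R` of norm less than `m`. -/
def Vm (m : ℕ) : AddSubgroup (Additive Fˣ) :=
  AddSubgroup.closure {v | ∃ a : R, a ≠ 0 ∧ H.N a < m ∧ v = lr F a}

variable {F}

omit [IsDomain R] [IsFractionRing R F] in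
lemma lr_mem {a : R} {m : ℕ} (ha : a ≠ 0) (h : H.N a < m) : lr F a ∈ Vm H F m :=
  AddSubgroup.subset_closure ⟨a, ha, h, rfl⟩

omit [IsDomain R] in
lemma am_ne {a : R} (ha : a ≠ 0) : algebraMap R F a ≠ 0 := by
  simpa using ha

omit [IsDomain R] in
lemma lr_mul {a b : R} (ha : a ≠ 0) (hb : b ≠ 0) : lr F (a * b) = lr F a + lr F b := by
  rw [lr, map_mul, lg_mul (am_ne ha) (am_ne hb)]; rfl

variable (F) in
omit [IsDomain R] [IsFractionRing R F] in
lemma lr_one : lr F (1 : R) = 0 := by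
  rw [lr, map_one, lg_one]

omit [IsDomain R] [IsFractionRing R F] in
lemma Vm_mono {m n : ℕ} (h : m ≤ n) : Vm H F m ≤ Vm H F n := by
  refine AddSubgroup.closure_mono ?_
  rintro v ⟨a, ha, h1, rfl⟩
  exact ⟨a, ha, lt_of_lt_of_le h1 h, rfl⟩

end

section homstep
variable {R : Type u} [CommRing R] [IsDomain R] {H : PN R} {F : Type x} [Field F] [Algebra R F]
  [IsFractionRing R F] {K : Type v} [Field K] {Q : Type w} [AddCommGroup Q] [Module ℚ Q]

/-- The homomorphism argument of Tate. -/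
lemma hom_step [Finite K] (L : Loc H K) (A : AF F Q)
    (hV : ∀ u ∈ Vm H F (H.N L.p), ∀ v ∈ Vm H F (H.N L.p), A.O u v = 0)
    (hS : ∀ a b c k : R, a ∈ H.P → b ∈ H.P → c ∈ H.P → H.N a < H.N L.p → H.N b < H.N L.p →
      H.N c < H.N L.p → k ≠ 0 → H.N k < H.N L.p → a * b - c = L.p * k →
      A.O (lr F c - (lr F a + lr F b)) (lr F L.p + lr F k - (lr F a + lr F b)) = 0)
    (v : Additive Fˣ) (hv : v ∈ Vm H F (H.N L.p)) : A.O v (lr F L.p) = 0 := by
  set φ : Kˣ → Q := fun r => A.O (lr F (L.rp (r : K))) (lr F L.p) with hφ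
  have hmul : ∀ r s : Kˣ, φ (r * s) = φ r + φ s := by
    intro r s
    have hr := r.ne_zero
    have hs := s.ne_zero
    have hrs : (r : K) * s ≠ 0 := mul_ne_zero hr hs
    simp only [hφ, Units.val_mul]
    set a := L.rp (r : K) with ha
    set b := L.rp (s : K) with hb
    set c := L.rp ((r : K) * s) with hc
    have a1 := L.rp_mem hr
    have a2 := L.rp_lt hr
    have b1 := L.rp_mem hs
    have b2 := L.rp_lt hs
    have c1 := L.rp_mem hrs
    have c2 := L.rp_lt hrs
    have a0 := L.rp_ne hr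
    have b0 := L.rp_ne hs
    have c0 := L.rp_ne hrs
    obtain ⟨k, hk⟩ := L.exists_k (e := a * b) (f := c) (by
      rw [map_mul, ha, hb, hc, L.red_rp hr, L.red_rp hs, L.red_rp hrs])
    by_cases hk0 : k = 0
    · rw [hk0, mul_zero, sub_eq_zero] at hk
      rw [← hk, lr_mul a0 b0, map_add, AddMonoidHom.add_apply]
    · have kl := H.k_lt3 a1 b1 c1 a2 b2 c2 hk
      have h := hS a b c k a1 b1 c1 a2 b2 c2 hk0 kl hk
      have ma := lr_mem (F := F) H a0 a2
      have mb := lr_mem (F := F) H b0 b2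
      have mc := lr_mem (F := F) H c0 c2
      have mk := lr_mem (F := F) H hk0 kl
      have h2 := hV _ (sub_mem mc (add_mem ma mb)) _ (sub_mem mk (add_mem ma mb))
      have e : lr F L.p + lr F k - (lr F a + lr F b) =
        lr F L.p + (lr F k - (lr F a + lr F b)) := by abel
      rw [e, map_add, h2, add_zero, map_sub, map_add, AddMonoidHom.sub_apply,
        AddMonoidHom.add_apply, sub_eq_zero] at h
      exact h
  have h1 : φ 1 = 0 := by
    have := hmul 1 1
    rw [mul_one] at this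
    simpa using this
  have hpow : ∀ (r : Kˣ) (n : ℕ), φ (r ^ n) = n • φ r := by
    intro r n
    induction n with
    | zero => simp [h1]
    | succ n ih => rw [pow_succ, hmul, ih, succ_nsmul]
  have hz : ∀ r : Kˣ, φ r = 0 := by
    intro r
    have hn : orderOf r ≠ 0 := (isOfFinOrder_of_finite r).orderOf_pos.ne'
    have := hpow r (orderOf r)
    rw [pow_orderOf_eq_one, h1] at this
    exact q_tors hn this.symm
  have hpos : ∀ a ∈ H.P, H.N a < H.N L.p → A.O (lr F a) (lr F L.p) = 0 := by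
    intro a ha la
    have h := L.red_ne (H.ne_zero ha) la
    have := hz (Units.mk0 _ h)
    simp only [hφ, Units.val_mk0, L.rp_red ha la] at this
    exact this
  induction hv using AddSubgroup.closure_induction with
  | mem x hx =>
    obtain ⟨a, ha, la, rfl⟩ := hx
    rcases H.sign a ha with h | h
    · exact hpos a h la
    · have := hpos (-a) h (by rwa [H.N_neg])
      rwa [lr, map_neg, A.neg1] at this
  | zero => simp
  | add x y _ _ hx hy => rw [map_add, AddMonoidHom.add_apply, hx, hy, add_zero]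
  | neg x _ hx => rw [map_neg, AddMonoidHom.neg_apply, hx, neg_zero]

end homstep

end Helper11.Gon
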