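import Pool.Agent.Helper11.Gon.Asm

set_option autoImplicit false

/-!
# The results for `F = ℚ` in terms of the definitions of `Iface.lean` and `Bridge.lean`
-/

noncomputable section

open scoped Classical
open Polynomial TensorProduct

namespace Helper14.Gon

universe u

/-- The element `∑ c(x) {x} ⊗ v_1 ∧ … ∧ v_j` of `B_2(F) ⊗ Λ^j F^* ⊗ ℚ`. -/
def cgn {F : Type u} [Field F] {j : ℕ} (c : P1 F →₀ ℚ) (v : Fin j → MU F) : CC 0 j F :=
  c.sum fun x q => q • gn 0 x v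

/-- The subspace of `B_2(F) ⊗ Λ^j F^* ⊗ ℚ` generated by the elements `b ⊗ v_1 ∧ … ∧ v_j` with
`b = ∑ c(x) {x}` in the kernel of `δ_2`, that is, in `H^1(Γ(F, 2) ⊗ ℚ)`. -/
def KL (j : ℕ) (F : Type u) [Field F] : Submodule ℚ (CC 0 j F) :=
  Submodule.span ℚ {y | ∃ (c : P1 F →₀ ℚ) (v : Fin j → MU F),
    dl 0 F (cgn c Fin.elim0) = 0 ∧ y = cgn c v}

section
variable {F : Type u} [Field F]

lemma eC_cgn {j : ℕ} (c : P1 F →₀ ℚ) (v : Fin j → MU F) :
    eC F 0 j (cgn c v) =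
      c.sum fun x q => q • gen 2 x (exteriorPower.ιMulti ℤ j (M := Additive Fˣ) v) := by
  rw [cgn, Finsupp.sum, map_sum, Finsupp.sum]
  refine Finset.sum_congr rfl fun x _ => ?_
  rw [map_smul, eC_gn]

lemma g0_eq (x : P1 F) : (g0 2 x : Cx 2 0 F) = eC F 0 0 (gn 0 x Fin.elim0) := by
  rw [eC_gn, g0]
  congr 1

lemma g0_eqv (x : P1 F) :
    (gen 2 x (exteriorPower.ιMulti ℤ 0 (M := Additive Fˣ) Fin.elim0) : Cx 2 0 F) = g0 2 x := by
  rw [g0_eq, eC_gn]

/-- Every element of `B_2 ⊗ ℚ` is a combination of generators. -/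
lemma exists_c (z : Cx 2 0 F) : ∃ c : P1 F →₀ ℚ, z = eC F 0 0 (cgn c Fin.elim0) := by
  have h : (⊤ : Submodule ℚ (Cx 2 0 F)) ≤
      LinearMap.range (Finsupp.linearCombination ℚ (fun x : P1 F => (g0 2 x : Cx 2 0 F))) := by
    set S := LinearMap.range (Finsupp.linearCombination ℚ (fun x : P1 F => (g0 2 x : Cx 2 0 F)))
    have : S.mkQ = 0 := by
      refine Cx0_ext fun x => ?_
      rw [LinearMap.zero_apply, Submodule.mkQ_apply, Submodule.Quotient.mk_eq_zero]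
      exact ⟨Finsupp.single x 1, by simp⟩
    intro y _
    have h1 := LinearMap.congr_fun this y
    rwa [LinearMap.zero_apply, Submodule.mkQ_apply, Submodule.Quotient.mk_eq_zero] at h1
  obtain ⟨c, hc⟩ := h (Submodule.mem_top (x := z))
  refine ⟨c, ?_⟩
  rw [← hc, Finsupp.linearCombination_apply, cgn, Finsupp.sum, Finsupp.sum, map_sum]
  refine Finset.sum_congr rfl fun x _ => ?_
  rw [map_smul, g0_eq]

lemma mW_cgn {j : ℕ} (c : P1 F →₀ ℚ) (v : Fin j → MU F) :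
    mW 2 j (exteriorPower.ιMulti ℤ j (M := Additive Fˣ) v) (eC F 0 0 (cgn c Fin.elim0)) =
      eC F 0 j (cgn c v) := by
  rw [eC_cgn, cgn, Finsupp.sum, Finsupp.sum, map_sum, map_sum]
  refine Finset.sum_congr rfl fun x _ => ?_
  rw [map_smul, map_smul, g0_eqv, mW_g0, eC_gn]

lemma span_le_KL (j : ℕ) : Submodule.span ℚ {y | ∃ (ω : Lam (j + 1) F) (z : Cx 2 0 F),
    dT 0 z = 0 ∧ y = mW 2 (j + 1) ω z} ≤ (KL (j + 1) F).map (eC F 0 (j + 1)).toLinearMap := by
  rw [Submodule.span_le]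
  rintro y ⟨ω, z, hz, rfl⟩
  obtain ⟨c, rfl⟩ := exists_c z
  have hc : dl 0 F (cgn c Fin.elim0) = 0 := by
    apply (eT F 2).injective
    rw [dl_eq, map_zero]
    exact hz
  have key : ((((KL (j + 1) F).map (eC F 0 (j + 1)).toLinearMap).mkQ.toAddMonoidHom).comp
      ((mWH 2 (j + 1)).flip (eC F 0 0 (cgn c Fin.elim0)))) = 0 := by
    refine lam_ext fun v => ?_
    change ((KL (j + 1) F).map (eC F 0 (j + 1)).toLinearMap).mkQ
      (mW 2 (j + 1) (exteriorPower.ιMulti ℤ (j + 1) (M := Additive Fˣ) v)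
        (eC F 0 0 (cgn c Fin.elim0))) = 0
    rw [mW_cgn, Submodule.mkQ_apply, Submodule.Quotient.mk_eq_zero]
    exact ⟨cgn c v, Submodule.subset_span ⟨c, v, hc, rfl⟩, rfl⟩
  have h2 := DFunLike.congr_fun key ω
  change ((KL (j + 1) F).map (eC F 0 (j + 1)).toLinearMap).mkQ
      (mW 2 (j + 1) ω (eC F 0 0 (cgn c Fin.elim0))) = 0 at h2
  rwa [Submodule.mkQ_apply, Submodule.Quotient.mk_eq_zero] at h2

lemma KL_le_ker (j : ℕ) : KL j F ≤ LinearMap.ker (dl j F) := by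
  rw [KL, Submodule.span_le]
  rintro y ⟨c, v, hc, rfl⟩
  change dl j F (cgn c v) = 0
  apply (eT F (j + 2)).injective
  rw [map_zero, dl_eq, ← mW_cgn, dT_mW]
  have : dT 0 (eC F 0 0 (cgn c Fin.elim0)) = 0 := by
    rw [← dl_eq, hc, map_zero]
  rw [this, map_zero]

end

section
variable {F : Type u} [Field F]
  (hT : Helper11.Gon.TriZero.{u, u} F)
  (hs : ∀ v w : Additive Fˣ, tw v w ∈ LinearMap.range (dT 0 : Cx 2 0 F →ₗ[ℚ] _))
include hT hs

/-- The kernel of the last differential is the image of the one before it plus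
`ker δ_2 ⊗ Λ^{n-2}`. -/
theorem ker_dl_eq (j : ℕ) : LinearMap.ker (dl (j + 1) F) =
    LinearMap.range (dd 0 j F) ⊔ KL (j + 1) F := by
  apply le_antisymm
  · intro z hz
    have h := ker_dl hT hs j z hz
    have h1 : LinearMap.range (dC 0 j : Cx 3 j F →ₗ[ℚ] _) ≤
        (LinearMap.range (dd 0 j F)).map (eC F 0 (j + 1)).toLinearMap := by
      rintro _ ⟨y, rfl⟩
      refine ⟨dd 0 j F ((eC F 1 j).symm y), ⟨_, rfl⟩, ?_⟩
      change eC F 0 (j + 1) (dd 0 j F ((eC F 1 j).symm y)) = _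
      rw [dd_eq, LinearEquiv.apply_symm_apply]
    have h2 := (sup_le_sup h1 (span_le_KL j)) h
    rw [← Submodule.map_sup] at h2
    obtain ⟨y, hy, hyz⟩ := h2
    have : y = z := (eC F 0 (j + 1)).injective hyz
    rwa [← this]
  · refine sup_le ?_ (KL_le_ker _)
    rintro _ ⟨y, rfl⟩
    exact dl_dd j y

end

section
variable {F : Type u} {L : Type u} [Field F] [Field L]

lemma rs_symm (k j : ℕ) (e : F ≃+* L) (z : CC k j F) :
    rs k j (e.symm : L →+* F) (rs k j (e : F →+* L) z) = z := by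
  have : (rs k j (e.symm : L →+* F)) ∘ₗ (rs k j (e : F →+* L)) = LinearMap.id := by
    refine CC_ext fun x v => ?_
    rw [LinearMap.comp_apply, rs_gn, rs_gn, LinearMap.id_apply]
    congr 1
    · rw [Option.map_map]
      have : (⇑(e.symm : L →+* F) ∘ ⇑(e : F →+* L)) = id := by
        funext y; simp
      rw [this, Option.map_id]; rfl
    · funext i
      change Additive.ofMul _ = v i
      rw [← ofMul_toMul (v i)]
      congr 1
      ext
      simp [mu]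
  exact LinearMap.congr_fun this z

/-- Invariance of the vanishing of `H^1(Γ(F, 2) ⊗ ℚ)`. -/
lemma inj_congr (e : F ≃+* L) (h : Function.Injective (dl 0 L)) :
    Function.Injective (dl 0 F) := by
  rw [injective_iff_map_eq_zero]
  intro z hz
  have h1 : rs 0 0 (e : F →+* L) z ∈ ZZ 0 L := rs_ZZ 0 (e : F →+* L) z hz
  have h2 : rs 0 0 (e : F →+* L) z = 0 := h (h1.trans (map_zero _).symm)
  rw [← rs_symm 0 0 e z, h2, map_zero]

/-- If `H^1(Γ(F, 2) ⊗ ℚ) = 0`, then `KL j F = 0`. -/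
lemma KL_bot (h : Function.Injective (dl 0 F)) (j : ℕ) : KL j F = ⊥ := by
  rw [KL, Submodule.span_eq_bot]
  rintro y ⟨c, v, hc, rfl⟩
  have h1 : cgn c Fin.elim0 = 0 := h (hc.trans (map_zero _).symm)
  apply (eC F 0 j).injective
  rw [← mW_cgn, h1, map_zero, map_zero, map_zero]

end

/-- `H^n(Γ(ℚ, n) ⊗ ℚ) = 0` for `n ≥ 2`. -/
theorem rat_surj (j : ℕ) : Function.Surjective (dl j ℚ) :=
  surj_dl (fun v w => Helper11.Gon.tw_mem_of Helper11.Gon.triZero_rat _ _
    Helper11.Gon.nu2_ne v w) j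

/-- The last but one cohomology group for `ℚ`. -/
theorem rat_ker (j : ℕ) : LinearMap.ker (dl (j + 1) ℚ) =
    LinearMap.range (dd 0 j ℚ) ⊔ KL (j + 1) ℚ :=
  ker_dl_eq Helper11.Gon.triZero_rat (fun v w => Helper11.Gon.tw_mem_of Helper11.Gon.triZero_rat
    _ _ Helper11.Gon.nu2_ne v w) j

section
variable {k : Type u} [Field k] {p : ℕ} (hp : p.Prime) [CharP k p]
    (h : ∀ x : k, ∃ m : ℕ, m ≠ 0 ∧ x ^ p ^ m = x)
include hp h

theorem rf_inj0 : Function.Injective (dl 0 (RatFunc k)) :=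
  LinearMap.ker_eq_bot.1 (ratFunc_deg1 hp h 0)

theorem rf_inj (m : ℕ) : Function.Injective (dd m 0 (RatFunc k)) :=
  LinearMap.ker_eq_bot.1 (ratFunc_deg1 hp h (m + 1))

theorem rf_tw (v w : Additive (RatFunc k)ˣ) :
    tw v w ∈ LinearMap.range (dT 0 : Cx 2 0 (RatFunc k) →ₗ[ℚ] _) :=
  Helper11.Gon.tw_mem_of (Helper11.Gon.triZero_ratFunc hp h) _ _ (Helper11.Gon.nuX_ne k) v w

theorem rf_surj (j : ℕ) : Function.Surjective (dl j (RatFunc k)) := surj_dl (rf_tw hp h) j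

theorem rf_exact (j : ℕ) : Function.Exact (dd 0 j (RatFunc k)) (dl (j + 1) (RatFunc k)) :=
  exact_dl_of_inj (Helper11.Gon.triZero_ratFunc hp h) (rf_tw hp h) (rf_inj0 hp h) j

end

end Helper14.Gon
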