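import Pool.Agent.Helper11.Gon.Om

set_option autoImplicit false

/-!
# The symbol attached to a prime element vanishes on small elements
-/

noncomputable section

open scoped Classical

namespace Helper11.Gon

universe u v w x

section
variable {R : Type u} [CommRing R] [IsDomain R] {H : PN R} {F : Type x} [Field F] [Algebra R F]
  [IsFractionRing R F] {K : Type v} [Field K] {Q : Type w} [AddCommGroup Q] [Module ℚ Q]
  (L : Loc H K) (A : AF F Q)

/-- The vanishing of `x ∧ (1 - x)` if `p` occurs in `1 - x` with multiplicity one and the rest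
is small. -/
def Inv1 : Prop := ∀ x : F, x ≠ 0 → ∀ u ∈ Vm H F (H.N L.p), ∀ v ∈ Vm H F (H.N L.p),
  lg x = u → lg (1 - x) = lr F L.p + v → 1 - x ≠ 0 → A.O (lg x) (lg (1 - x)) = 0

variable {L A} (hA : Inv1 L A)
include hA

/-- Two fractions of small elements which are congruent modulo `p` have the same symbol. -/
lemma trans {e f g e' f' g' k : R} (e0 : e ≠ 0) (f0 : f ≠ 0) (g0 : g ≠ 0) (e0' : e' ≠ 0)
    (f0' : f' ≠ 0) (g0' : g' ≠ 0) (me : lr F e ∈ Vm H F (H.N L.p))
    (mf : lr F f ∈ Vm H F (H.N L.p)) (mg : lr F g ∈ Vm H F (H.N L.p))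
    (me' : lr F e' ∈ Vm H F (H.N L.p)) (mf' : lr F f' ∈ Vm H F (H.N L.p))
    (mg' : lr F g' ∈ Vm H F (H.N L.p)) (hg : f - e = g) (hg' : f' - e' = g')
    (hk : e * f' - e' * f = L.p * k) (mk : k ≠ 0 → lr F k ∈ Vm H F (H.N L.p)) :
    A.St (algebraMap R F e / algebraMap R F f) = A.St (algebraMap R F e' / algebraMap R F f') := by
  have p0 := H.ne_zero L.mem
  have Fe := am_ne (F := F) e0
  have Ff := am_ne (F := F) f0
  have Fg := am_ne (F := F) g0
  have Fe' := am_ne (F := F) e0'
  have Ff' := am_ne (F := F) f0'
  have Fg' := am_ne (F := F) g0'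
  have Fp := am_ne (F := F) p0
  have hgF : algebraMap R F f - algebraMap R F e = algebraMap R F g := by
    rw [← map_sub, hg]
  have hgF' : algebraMap R F f' - algebraMap R F e' = algebraMap R F g' := by
    rw [← map_sub, hg']
  have hkF : algebraMap R F e * algebraMap R F f' - algebraMap R F e' * algebraMap R F f =
      algebraMap R F L.p * algebraMap R F k := by
    rw [← map_mul, ← map_mul, ← map_sub, hk, map_mul]
  have y1 : 1 - algebraMap R F e / algebraMap R F f = algebraMap R F g / algebraMap R F f := by
    rw [← hgF]; field_simp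
  have y1' : 1 - algebraMap R F e' / algebraMap R F f' =
      algebraMap R F g' / algebraMap R F f' := by
    rw [← hgF']; field_simp
  have yy : algebraMap R F e / algebraMap R F f - algebraMap R F e' / algebraMap R F f' =
      algebraMap R F L.p * algebraMap R F k / (algebraMap R F f * algebraMap R F f') := by
    rw [← hkF]; field_simp
  have hne : algebraMap R F e / algebraMap R F f ≠ 1 := by
    intro h
    rw [h, sub_self] at y1
    exact div_ne_zero Fg Ff y1.symm
  have hne' : algebraMap R F e' / algebraMap R F f' ≠ 1 := by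
    intro h
    rw [h, sub_self] at y1'
    exact div_ne_zero Fg' Ff' y1'.symm
  have hk0 : algebraMap R F e / algebraMap R F f ≠ algebraMap R F e' / algebraMap R F f' →
      k ≠ 0 := by
    rintro h rfl
    rw [map_zero, mul_zero, zero_div, sub_eq_zero] at yy
    exact h yy
  refine A.transfer (div_ne_zero Fe Ff) hne (div_ne_zero Fe' Ff') hne' ?_ ?_ ?_
  · intro h
    have k0 := hk0 h
    have Fk := am_ne (F := F) k0
    have mk := mk k0
    have z1 : algebraMap R F e' / algebraMap R F f' / (algebraMap R F e / algebraMap R F f) =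
        algebraMap R F e' * algebraMap R F f / (algebraMap R F f' * algebraMap R F e) := by
      field_simp
    have z2 : (algebraMap R F e / algebraMap R F f - algebraMap R F e' / algebraMap R F f') /
        (algebraMap R F e / algebraMap R F f) =
        algebraMap R F L.p * algebraMap R F k / (algebraMap R F f' * algebraMap R F e) := by
      rw [yy]; field_simp
    have z3 : 1 - algebraMap R F e' / algebraMap R F f' / (algebraMap R F e / algebraMap R F f) =
        (algebraMap R F e / algebraMap R F f - algebraMap R F e' / algebraMap R F f') /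
        (algebraMap R F e / algebraMap R F f) := by
      field_simp
    rw [← z3]
    refine hA _ (div_ne_zero (div_ne_zero Fe' Ff') (div_ne_zero Fe Ff))
      (lr F e' + lr F f - (lr F f' + lr F e)) (sub_mem (add_mem me' mf) (add_mem mf' me))
      (lr F k - (lr F f' + lr F e)) (sub_mem mk (add_mem mf' me)) ?_ ?_ ?_
    · rw [z1, lg_div (mul_ne_zero Fe' Ff) (mul_ne_zero Ff' Fe), lg_mul Fe' Ff, lg_mul Ff' Fe]; rfl
    · rw [z3, z2, lg_div (mul_ne_zero Fp Fk) (mul_ne_zero Ff' Fe), lg_mul Fp Fk, lg_mul Ff' Fe,
        add_sub_assoc]; rfl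
    · rw [z3, z2]; exact div_ne_zero (mul_ne_zero Fp Fk) (mul_ne_zero Ff' Fe)
  · intro h
    have k0 := hk0 h
    have Fk := am_ne (F := F) k0
    have mk := mk k0
    have z1 : (1 - algebraMap R F e / algebraMap R F f) /
        (1 - algebraMap R F e' / algebraMap R F f') =
        algebraMap R F g * algebraMap R F f' / (algebraMap R F f * algebraMap R F g') := by
      rw [y1, y1']; field_simp
    have z2 : (algebraMap R F e / algebraMap R F f - algebraMap R F e' / algebraMap R F f') /
        (1 - algebraMap R F e' / algebraMap R F f') =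
        algebraMap R F L.p * algebraMap R F k / (algebraMap R F f * algebraMap R F g') := by
      rw [yy, y1']; field_simp
    have z3 : 1 - (1 - algebraMap R F e / algebraMap R F f) /
        (1 - algebraMap R F e' / algebraMap R F f') =
        (algebraMap R F e / algebraMap R F f - algebraMap R F e' / algebraMap R F f') /
        (1 - algebraMap R F e' / algebraMap R F f') := by
      have : 1 - algebraMap R F e' / algebraMap R F f' ≠ 0 := sub_ne_zero.2 (Ne.symm hne')
      rw [eq_div_iff this, sub_mul, div_mul_cancel₀ _ this]; ring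
    rw [← z3]
    refine hA _ (by rw [z1]; exact div_ne_zero (mul_ne_zero Fg Ff') (mul_ne_zero Ff Fg'))
      (lr F g + lr F f' - (lr F f + lr F g')) (sub_mem (add_mem mg mf') (add_mem mf mg'))
      (lr F k - (lr F f + lr F g')) (sub_mem mk (add_mem mf mg')) ?_ ?_ ?_
    · rw [z1, lg_div (mul_ne_zero Fg Ff') (mul_ne_zero Ff Fg'), lg_mul Fg Ff', lg_mul Ff Fg']; rfl
    · rw [z3, z2, lg_div (mul_ne_zero Fp Fk) (mul_ne_zero Ff Fg'), lg_mul Fp Fk, lg_mul Ff Fg',
        add_sub_assoc]; rfl
    · rw [z3, z2]; exact div_ne_zero (mul_ne_zero Fp Fk) (mul_ne_zero Ff Fg')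
  · intro h
    have k0 := hk0 h
    have Fk := am_ne (F := F) k0
    have mk := mk k0
    have z1 : algebraMap R F e' / algebraMap R F f' * (1 - algebraMap R F e / algebraMap R F f) /
        (algebraMap R F e / algebraMap R F f * (1 - algebraMap R F e' / algebraMap R F f')) =
        algebraMap R F e' * algebraMap R F g / (algebraMap R F e * algebraMap R F g') := by
      rw [y1, y1']; field_simp
    have z2 : (algebraMap R F e / algebraMap R F f - algebraMap R F e' / algebraMap R F f') /
        (algebraMap R F e / algebraMap R F f * (1 - algebraMap R F e' / algebraMap R F f')) =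
        algebraMap R F L.p * algebraMap R F k / (algebraMap R F e * algebraMap R F g') := by
      rw [yy, y1']; field_simp
    have z3 : 1 - algebraMap R F e' / algebraMap R F f' *
        (1 - algebraMap R F e / algebraMap R F f) /
        (algebraMap R F e / algebraMap R F f * (1 - algebraMap R F e' / algebraMap R F f')) =
        (algebraMap R F e / algebraMap R F f - algebraMap R F e' / algebraMap R F f') /
        (algebraMap R F e / algebraMap R F f * (1 - algebraMap R F e' / algebraMap R F f')) := by
      have : 1 - algebraMap R F e' / algebraMap R F f' ≠ 0 := sub_ne_zero.2 (Ne.symm hne')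
      have h2 := mul_ne_zero (div_ne_zero Fe Ff) this
      rw [eq_div_iff h2, sub_mul, div_mul_cancel₀ _ h2]; ring
    rw [← z3]
    refine hA _ (by rw [z1]; exact div_ne_zero (mul_ne_zero Fe' Fg) (mul_ne_zero Fe Fg'))
      (lr F e' + lr F g - (lr F e + lr F g')) (sub_mem (add_mem me' mg) (add_mem me mg'))
      (lr F k - (lr F e + lr F g')) (sub_mem mk (add_mem me mg')) ?_ ?_ ?_
    · rw [z1, lg_div (mul_ne_zero Fe' Fg) (mul_ne_zero Fe Fg'), lg_mul Fe' Fg, lg_mul Fe Fg']; rfl
    · rw [z3, z2, lg_div (mul_ne_zero Fp Fk) (mul_ne_zero Fe Fg'), lg_mul Fp Fk, lg_mul Fe Fg',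
        add_sub_assoc]; rfl
    · rw [z3, z2]; exact div_ne_zero (mul_ne_zero Fp Fk) (mul_ne_zero Fe Fg')

end

end Helper11.Gon
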