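import Pool.Agent.Helper11.Gon.Sym

set_option autoImplicit false

/-!
# The symbol attached to a prime element vanishes on small elements, continued
-/

noncomputable section

open scoped Classical

namespace Helper11.Gon

universe u v w x

section
variable {R : Type u} [CommRing R] [IsDomain R] {H : PN R} {F : Type x} [Field F] [Algebra R F]
  [IsFractionRing R F] {K : Type v} [Field K] {Q : Type w} [AddCommGroup Q] [Module ℚ Q]
  {L : Loc H K} {A : AF F Q} (hA : Inv1 L A)

include hA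

/-- Fractions of small positive elements. -/
lemma St_mn {m n : R} (hm : m ∈ H.P) (hn : n ∈ H.P) (lm : H.N m < H.N L.p)
    (ln : H.N n < H.N L.p) (hmn : m ≠ n) :
    A.St (algebraMap R F m / algebraMap R F n) =
      A.St (algebraMap R F (L.rp (L.red m / L.red n))) := by
  have m0 := H.ne_zero hm
  have n0 := H.ne_zero hn
  have rm := L.red_ne m0 lm
  have rn := L.red_ne n0 ln
  have r0 : L.red m / L.red n ≠ 0 := div_ne_zero rm rn
  set r := L.red m / L.red n with hr
  have hne : L.rp r ≠ 1 := by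
    intro h
    have h1 := L.red_rp r0
    rw [h, map_one, hr, eq_comm, div_eq_one_iff_eq rn] at h1
    exact hmn (L.red_inj hm hn lm ln h1)
  have key : L.red m = L.red (L.rp r * n) := by
    rw [map_mul, L.red_rp r0, hr, div_mul_cancel₀ _ rn]
  obtain ⟨k, hk⟩ := L.exists_k (e := m * 1) (f := L.rp r * n) (by rw [mul_one]; exact key)
  have kl := H.k_lt4 hm H.one_mem (L.rp_mem r0) hn lm L.N_one_lt (L.rp_lt r0) ln hk
  have := trans (F := F) hA (e := m) (f := n) (g := n - m) (e' := L.rp r) (f' := 1)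
    (g' := 1 - L.rp r) (k := k) m0 n0 (sub_ne_zero.2 hmn.symm) (L.rp_ne r0) one_ne_zero
    (sub_ne_zero.2 hne.symm) (lr_mem H m0 lm) (lr_mem H n0 ln)
    (lr_mem H (sub_ne_zero.2 hmn.symm) (H.sub_lt hn hm ln lm)) (lr_mem H (L.rp_ne r0) (L.rp_lt r0))
    (lr_mem H one_ne_zero L.N_one_lt)
    (lr_mem H (sub_ne_zero.2 hne.symm) (H.sub_lt H.one_mem (L.rp_mem r0) L.N_one_lt
      (L.rp_lt r0))) rfl rfl hk (fun h => lr_mem H h kl)
  rw [this, map_one, div_one]

/-- The fourth term of the five-term relation. -/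
lemma St_four {r t : K} (r0 : r ≠ 0) (r1 : r ≠ 1) (t0 : t ≠ 0) (t1 : t ≠ 1) (hrt : r ≠ t) :
    A.St (algebraMap R F (L.rp t * (L.rp r - 1)) / algebraMap R F (L.rp r * (L.rp t - 1))) =
      A.St (algebraMap R F (L.rp (t * (r - 1) / (r * (t - 1))))) := by
  have hr1 : L.rp r ≠ 1 := by
    intro h
    have := L.red_rp r0
    rw [h, map_one] at this
    exact r1 this.symm
  have ht1 : L.rp t ≠ 1 := by
    intro h
    have := L.red_rp t0
    rw [h, map_one] at this
    exact t1 this.symm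
  have r1' : r - 1 ≠ 0 := sub_ne_zero.2 r1
  have t1' : t - 1 ≠ 0 := sub_ne_zero.2 t1
  have mr1 := H.sub_one _ (L.rp_mem r0) hr1
  have mt1 := H.sub_one _ (L.rp_mem t0) ht1
  have lr1 := H.sub_lt (L.rp_mem r0) H.one_mem (L.rp_lt r0) L.N_one_lt
  have lt1 := H.sub_lt (L.rp_mem t0) H.one_mem (L.rp_lt t0) L.N_one_lt
  have hne : L.rp t ≠ L.rp r := by
    intro h
    apply hrt
    rw [← L.red_rp r0, ← L.red_rp t0, h]
  set s := t * (r - 1) / r with hs
  have s0 : s ≠ 0 := div_ne_zero (mul_ne_zero t0 r1') r0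
  have hg : L.rp s ≠ L.rp t - 1 := by
    intro h
    have h1 := L.red_rp s0
    rw [h, map_sub, map_one, L.red_rp t0, hs, eq_div_iff r0] at h1
    apply hrt
    linear_combination -h1
  obtain ⟨k, hk⟩ := L.exists_k (e := L.rp t * (L.rp r - 1)) (f := L.rp s * L.rp r) (by
    rw [map_mul, map_mul, map_sub, map_one, L.red_rp t0, L.red_rp r0, L.red_rp s0, hs,
      div_mul_cancel₀ _ r0])
  have kl := H.k_lt4 (L.rp_mem t0) mr1 (L.rp_mem s0) (L.rp_mem r0) (L.rp_lt t0) lr1
    (L.rp_lt s0) (L.rp_lt r0) hk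
  have ft := lr_mem (F := F) H (L.rp_ne t0) (L.rp_lt t0)
  have fr := lr_mem (F := F) H (L.rp_ne r0) (L.rp_lt r0)
  have fs := lr_mem (F := F) H (L.rp_ne s0) (L.rp_lt s0)
  have fr1 := lr_mem (F := F) H (H.ne_zero mr1) lr1
  have ft1 := lr_mem (F := F) H (H.ne_zero mt1) lt1
  have h1 := trans (F := F) hA (e := L.rp t * (L.rp r - 1)) (f := L.rp r * (L.rp t - 1))
    (g := L.rp t - L.rp r) (e' := L.rp s) (f' := L.rp t - 1)
    (g' := L.rp t - 1 - L.rp s) (k := k * (L.rp t - 1))
    (mul_ne_zero (L.rp_ne t0) (H.ne_zero mr1)) (mul_ne_zero (L.rp_ne r0) (H.ne_zero mt1))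
    (sub_ne_zero.2 hne) (L.rp_ne s0) (H.ne_zero mt1) (sub_ne_zero.2 hg.symm)
    (by rw [lr_mul (L.rp_ne t0) (H.ne_zero mr1)]; exact add_mem ft fr1)
    (by rw [lr_mul (L.rp_ne r0) (H.ne_zero mt1)]; exact add_mem fr ft1)
    (lr_mem H (sub_ne_zero.2 hne) (H.sub_lt (L.rp_mem t0) (L.rp_mem r0) (L.rp_lt t0)
      (L.rp_lt r0))) fs ft1
    (lr_mem H (sub_ne_zero.2 hg.symm) (H.sub_lt mt1 (L.rp_mem s0) lt1 (L.rp_lt s0)))
    (by ring) rfl (by linear_combination (L.rp t - 1) * hk)
    (fun h => by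
      have k0 : k ≠ 0 := left_ne_zero_of_mul h
      rw [lr_mul k0 (H.ne_zero mt1)]
      exact add_mem (lr_mem H k0 kl) ft1)
  rw [h1, St_mn hA (L.rp_mem s0) mt1 (L.rp_lt s0) lt1 hg]
  congr 3
  rw [L.red_rp s0, map_sub, map_one, L.red_rp t0, hs]
  field_simp

/-- The symbol vanishes on the representatives. -/
lemma St_rp [Finite K] {r : K} (r0 : r ≠ 0) (r1 : r ≠ 1) :
    A.St (algebraMap R F (L.rp r)) = 0 := by
  have hne1 : ∀ {r : K}, r ≠ 0 → r ≠ 1 → L.rp r ≠ 1 := by
    intro r r0 r1 h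
    have := L.red_rp r0
    rw [h, map_one] at this
    exact r1 this.symm
  refine Helper82.Gon3.five_avg (fun r => A.St (algebraMap R F (L.rp r))) ?_ ?_ r r0 r1
  · intro r r0 r1
    have h := St_mn hA (F := F) H.one_mem (L.rp_mem r0) L.N_one_lt (L.rp_lt r0)
      (hne1 r0 r1).symm
    rw [map_one, map_one, one_div, L.red_rp r0, one_div] at h
    rw [← h, A.St_inv]
  · intro r t r0 r1 t0 t1 hrt
    have hr := hne1 r0 r1
    have ht := hne1 t0 t1
    have Fr := am_ne (F := F) (L.rp_ne r0)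
    have Ft := am_ne (F := F) (L.rp_ne t0)
    have hrt' : L.rp r ≠ L.rp t := by
      intro h
      apply hrt
      rw [← L.red_rp r0, ← L.red_rp t0, h]
    have mr1 := H.sub_one _ (L.rp_mem r0) hr
    have mt1 := H.sub_one _ (L.rp_mem t0) ht
    have lr1 := H.sub_lt (L.rp_mem r0) H.one_mem (L.rp_lt r0) L.N_one_lt
    have lt1 := H.sub_lt (L.rp_mem t0) H.one_mem (L.rp_lt t0) L.N_one_lt
    have Fr1 : algebraMap R F (L.rp r) ≠ 1 := by
      intro h
      apply hr
      exact IsFractionRing.injective R F (by rw [h, map_one])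
    have Ft1 : algebraMap R F (L.rp t) ≠ 1 := by
      intro h
      apply ht
      exact IsFractionRing.injective R F (by rw [h, map_one])
    have Frt : algebraMap R F (L.rp r) ≠ algebraMap R F (L.rp t) := fun h =>
      hrt' (IsFractionRing.injective R F h)
    have h5 := A.five Fr Fr1 Ft Ft1 Frt
    have r1' : r - 1 ≠ 0 := sub_ne_zero.2 r1
    have t1' : t - 1 ≠ 0 := sub_ne_zero.2 t1
    have Fr1' := sub_ne_zero.2 Fr1
    have Ft1' := sub_ne_zero.2 Ft1
    have e1 : A.St (algebraMap R F (L.rp t) / algebraMap R F (L.rp r)) =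
        A.St (algebraMap R F (L.rp (t / r))) := by
      rw [St_mn hA (L.rp_mem t0) (L.rp_mem r0) (L.rp_lt t0) (L.rp_lt r0) hrt'.symm,
        L.red_rp t0, L.red_rp r0]
    have e2 : A.St ((1 - algebraMap R F (L.rp r)) / (1 - algebraMap R F (L.rp t))) =
        A.St (algebraMap R F (L.rp ((1 - r) / (1 - t)))) := by
      have h := St_mn hA (F := F) mr1 mt1 lr1 lt1 (by
        intro h
        apply hrt'
        linear_combination h)
      rw [map_sub, map_sub, map_one, map_sub, map_sub, map_one, L.red_rp t0, L.red_rp r0] at h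
      have z1 : (1 - algebraMap R F (L.rp r)) / (1 - algebraMap R F (L.rp t)) =
          (algebraMap R F (L.rp r) - 1) / (algebraMap R F (L.rp t) - 1) := by
        rw [← neg_sub, ← neg_sub (algebraMap R F (L.rp t)), neg_div_neg_eq]
      have z2 : (1 - r) / (1 - t) = (r - 1) / (t - 1) := by
        rw [← neg_sub, ← neg_sub t, neg_div_neg_eq]
      rw [z1, z2, h]
    have e3 : A.St ((1 - (algebraMap R F (L.rp r))⁻¹) / (1 - (algebraMap R F (L.rp t))⁻¹)) =
        A.St (algebraMap R F (L.rp ((1 - r⁻¹) / (1 - t⁻¹)))) := by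
      have z1 : (1 - (algebraMap R F (L.rp r))⁻¹) / (1 - (algebraMap R F (L.rp t))⁻¹) =
          algebraMap R F (L.rp t * (L.rp r - 1)) / algebraMap R F (L.rp r * (L.rp t - 1)) := by
        have y1 : 1 - (algebraMap R F (L.rp r))⁻¹ =
            (algebraMap R F (L.rp r) - 1) / algebraMap R F (L.rp r) := by field_simp
        have y2 : 1 - (algebraMap R F (L.rp t))⁻¹ =
            (algebraMap R F (L.rp t) - 1) / algebraMap R F (L.rp t) := by field_simp
        rw [y1, y2, map_mul, map_mul, map_sub, map_sub, map_one]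
        field_simp
      have z2 : (1 - r⁻¹) / (1 - t⁻¹) = t * (r - 1) / (r * (t - 1)) := by
        have y1 : 1 - r⁻¹ = (r - 1) / r := by field_simp
        have y2 : 1 - t⁻¹ = (t - 1) / t := by field_simp
        rw [y1, y2]
        field_simp
      rw [z1, z2]
      exact St_four hA r0 r1 t0 t1 hrt
    rw [e1, e2, e3] at h5
    exact h5

/-- The symbol vanishes on fractions of small elements. -/
lemma St_mn_zero [Finite K] {m n : R} (hm : m ∈ H.P) (hn : n ∈ H.P) (lm : H.N m < H.N L.p)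
    (ln : H.N n < H.N L.p) (hmn : m ≠ n) :
    A.St (algebraMap R F m / algebraMap R F n) = 0 := by
  rw [St_mn hA hm hn lm ln hmn]
  refine St_rp hA (div_ne_zero (L.red_ne (H.ne_zero hm) lm) (L.red_ne (H.ne_zero hn) ln)) ?_
  intro h
  rw [div_eq_one_iff_eq (L.red_ne (H.ne_zero hn) ln)] at h
  exact hmn (L.red_inj hm hn lm ln h)

/-- The hypothesis of Tate's induction. -/
lemma St_abc [Finite K] {a b c ρ k : R} (ha : a ∈ H.P) (hb : b ∈ H.P) (hc : c ∈ H.P)
    (ρ0 : ρ ≠ 0) (la : H.N a < H.N L.p) (lb : H.N b < H.N L.p) (lc : H.N c < H.N L.p)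
    (lρ : H.N ρ < H.N L.p) (k0 : k ≠ 0) (lk : H.N k < H.N L.p) (h : a * b - c = ρ * k) :
    A.O (lr F c - (lr F a + lr F b)) (lr F ρ + lr F k - (lr F a + lr F b)) = 0 := by
  have a0 := H.ne_zero ha
  have b0 := H.ne_zero hb
  have c0 := H.ne_zero hc
  have ra := L.red_ne a0 la
  have rb := L.red_ne b0 lb
  have rc := L.red_ne c0 lc
  set s := L.red c / L.red a with hs
  have s0 : s ≠ 0 := div_ne_zero rc ra
  have hne : L.rp s ≠ b := by
    intro h1
    have h2 := L.red_rp s0
    rw [h1, hs, eq_div_iff ra] at h2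
    have h3 : L.red (ρ * k) = 0 := by
      rw [← h, map_sub, map_mul]
      linear_combination h2
    rw [map_mul] at h3
    rcases mul_eq_zero.1 h3 with h3 | h3
    · exact L.red_ne ρ0 lρ h3
    · exact L.red_ne k0 lk h3
  obtain ⟨k', hk'⟩ := L.exists_k (e := c * 1) (f := L.rp s * a) (by
    rw [mul_one, map_mul, L.red_rp s0, hs, div_mul_cancel₀ _ ra])
  have kl := H.k_lt4 hc H.one_mem (L.rp_mem s0) ha lc L.N_one_lt (L.rp_lt s0) la hk'
  have fa := lr_mem (F := F) H a0 la
  have fb := lr_mem (F := F) H b0 lb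
  have fc := lr_mem (F := F) H c0 lc
  have fs := lr_mem (F := F) H (L.rp_ne s0) (L.rp_lt s0)
  have fρ := lr_mem (F := F) H ρ0 lρ
  have fk := lr_mem (F := F) H k0 lk
  have h1 := trans (F := F) hA (e := c) (f := a * b) (g := ρ * k) (e' := L.rp s) (f' := b)
    (g' := b - L.rp s) (k := k' * b) c0 (mul_ne_zero a0 b0) (mul_ne_zero ρ0 k0) (L.rp_ne s0) b0
    (sub_ne_zero.2 hne.symm) fc (by rw [lr_mul a0 b0]; exact add_mem fa fb)
    (by rw [lr_mul ρ0 k0]; exact add_mem fρ fk) fs fb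
    (lr_mem H (sub_ne_zero.2 hne.symm) (H.sub_lt hb (L.rp_mem s0) lb (L.rp_lt s0)))
    h rfl (by linear_combination b * hk')
    (fun h => by
      have k0' : k' ≠ 0 := left_ne_zero_of_mul h
      rw [lr_mul k0' b0]
      exact add_mem (lr_mem H k0' kl) fb)
  rw [St_mn_zero hA (L.rp_mem s0) hb (L.rp_lt s0) lb hne] at h1
  have Fa := am_ne (F := F) a0
  have Fb := am_ne (F := F) b0
  have Fc := am_ne (F := F) c0
  have Fρ := am_ne (F := F) ρ0
  have Fk := am_ne (F := F) k0
  have hF : algebraMap R F a * algebraMap R F b - algebraMap R F c =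
      algebraMap R F ρ * algebraMap R F k := by
    rw [← map_mul, ← map_sub, h, map_mul]
  have e1 : 1 - algebraMap R F c / algebraMap R F (a * b) =
      algebraMap R F ρ * algebraMap R F k / algebraMap R F (a * b) := by
    rw [← hF, map_mul]; field_simp
  have Fab := am_ne (F := F) (mul_ne_zero a0 b0)
  rw [AF.St, e1, lg_div Fc Fab, lg_div (mul_ne_zero Fρ Fk) Fab, lg_mul Fρ Fk, map_mul,
    lg_mul Fa Fb] at h1
  exact h1

end

end Helper11.Gon
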