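import Pool.Agent.Helper11.Gon.PN

set_option autoImplicit false

/-!
# The induction of Tate
-/

noncomputable section

open scoped Classical

namespace Helper11.Gon

universe u v w x

section closure
variable {A : Type u} [AddCommGroup A] {Q : Type w} [AddCommGroup Q]

lemma lin_closure (O : A →+ Q) (S : Set A) (h : ∀ x ∈ S, O x = 0) :
    ∀ u ∈ AddSubgroup.closure S, O u = 0 := by
  intro u hu
  induction hu using AddSubgroup.closure_induction with
  | mem x hx => exact h x hx
  | zero => exact map_zero O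
  | add x y _ _ hx hy => rw [map_add, hx, hy, add_zero]
  | neg x _ hx => rw [map_neg, hx, neg_zero]

lemma bil_closure (O : A →+ A →+ Q) (S S' : Set A) (h : ∀ x ∈ S, ∀ y ∈ S', O x y = 0) :
    ∀ u ∈ AddSubgroup.closure S, ∀ v ∈ AddSubgroup.closure S', O u v = 0 := by
  intro u hu v hv
  refine lin_closure (O.flip v) S (fun x hx => ?_) u hu
  exact lin_closure (O x) S' (fun y hy => h x hx y hy) v hv

lemma tri_closure (O : A →+ A →+ A →+ Q) (S : Set A)
    (h : ∀ x ∈ S, ∀ y ∈ S, ∀ z ∈ S, O x y z = 0) :
    ∀ u ∈ AddSubgroup.closure S, ∀ v ∈ AddSubgroup.closure S, ∀ w ∈ AddSubgroup.closure S,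
      O u v w = 0 := by
  intro u hu v hv w hw
  refine lin_closure ((O.flip v).flip w) S (fun x hx => ?_) u hu
  exact bil_closure (O x) S S (fun y hy z hz => h x hx y hy z hz) v hv w hw

end closure

section
variable {R : Type u} [CommRing R] [IsDomain R] (H : PN R)

lemma irr_neg {a : R} (h : Irreducible a) : Irreducible (-a) :=
  ((Associated.refl a).neg_right).irreducible h

lemma exists_loc [IsPrincipalIdealRing R] {ρ : R} (h : ρ ∈ H.P) (hi : Irreducible ρ) :
    ∃ (K : Type u) (i : Field K) (_ : Finite K) (L : @Loc R _ H K i), L.p = ρ := by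
  have hm : (Ideal.span {ρ}).IsMaximal := PrincipalIdealRing.isMaximal_of_irreducible hi
  let i : Field (R ⧸ Ideal.span {ρ}) := Ideal.Quotient.field _
  exact ⟨R ⧸ Ideal.span {ρ}, i, H.fin ρ h,
    { p := ρ
      mem := h
      red := Ideal.Quotient.mk _
      red_eq_zero := fun a => by
        rw [Ideal.Quotient.eq_zero_iff_mem, Ideal.mem_span_singleton]
      surj := Ideal.Quotient.mk_surjective }, rfl⟩

variable {F : Type x} [Field F] [Algebra R F] [IsFractionRing R F]
  {Q : Type w} [AddCommGroup Q] [Module ℚ Q]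

include H in
omit [IsDomain R] in
lemma unit_tors {a : R} (h : IsUnit a) : ∃ n : ℕ, n ≠ 0 ∧ n • lr F a = 0 := by
  obtain ⟨u, rfl⟩ := h
  obtain ⟨n, hn, h1⟩ := H.tors u
  refine ⟨n, hn, ?_⟩
  have hu : algebraMap R F (u : R) ≠ 0 := by
    have := (u.isUnit.map (algebraMap R F)).ne_zero
    exact this
  rw [lr, ← lg_pow hu, ← map_pow, ← Units.val_pow_eq_pow_val, h1, Units.val_one, map_one, lg_one]

include H in
omit [IsDomain R] in
lemma hom_unit (f : Additive Fˣ →+ Q) {a : R} (h : IsUnit a) : f (lr F a) = 0 := by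
  obtain ⟨n, hn, h1⟩ := unit_tors H (F := F) h
  exact hom_tors f hn h1

/-- An element of norm `m` is a unit, irreducible, or a product of elements of smaller norm. -/
lemma trichotomy {a : R} {m : ℕ} (ha : a ≠ 0) (h : H.N a ≤ m) :
    IsUnit a ∨ lr F a ∈ Vm H F m ∨ (Irreducible a ∧ H.N a = m) := by
  by_cases hu : IsUnit a
  · exact Or.inl hu
  by_cases hlt : H.N a < m
  · exact Or.inr (Or.inl (lr_mem H ha hlt))
  have hm : H.N a = m := by omega
  by_cases hi : Irreducible a
  · exact Or.inr (Or.inr ⟨hi, hm⟩)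
  right; left
  rw [irreducible_iff] at hi
  push Not at hi
  obtain ⟨b, c, rfl, hb, hc⟩ := hi hu
  have hb0 : b ≠ 0 := left_ne_zero_of_mul ha
  have hc0 : c ≠ 0 := right_ne_zero_of_mul ha
  rw [H.N_mul] at hm
  have h1 : H.N b ≠ 1 := fun h => hb (H.N_unit b h)
  have h2 : H.N c ≠ 1 := fun h => hc (H.N_unit c h)
  have h3 := H.N_ne hb0
  have h4 := H.N_ne hc0
  rw [lr_mul hb0 hc0]
  refine add_mem (lr_mem H hb0 ?_) (lr_mem H hc0 ?_)
  · rw [← hm]
    exact lt_mul_of_one_lt_right (by omega) (by omega)
  · rw [← hm]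
    exact lt_mul_of_one_lt_left (by omega) (by omega)

omit [IsDomain R] [IsFractionRing R F] in
/-- Replace an irreducible element by its positive associate. -/
lemma pos_assoc {a : R} (ha : a ≠ 0) : ∃ b ∈ H.P, (b = a ∨ b = -a) ∧
    ∀ f : Additive Fˣ →+ Q, f (lr F b) = f (lr F a) := by
  rcases H.sign a ha with h | h
  · exact ⟨a, h, Or.inl rfl, fun f => rfl⟩
  · refine ⟨-a, h, Or.inr rfl, fun f => ?_⟩
    rw [lr, lr, map_neg, hom_neg]

include H in
lemma hom_assoc (f : Additive Fˣ →+ Q) {a b : R} (ha : a ≠ 0) (h : Associated a b) :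
    f (lr F b) = f (lr F a) := by
  obtain ⟨u, rfl⟩ := h
  rw [lr_mul ha u.ne_zero, map_add, hom_unit H f u.isUnit, add_zero]

variable [IsPrincipalIdealRing R]

/-- Tate's induction: an alternating form which vanishes on the elements
`c/(ab) ∧ (ab-c)/(ab)` with `ab - c` a product of two small elements is zero. -/
theorem tate (A : AF F Q) (M : ℕ)
    (hS : ∀ a b c ρ k : R, a ∈ H.P → b ∈ H.P → c ∈ H.P → ρ ∈ H.P → H.N a < M → H.N b < M →
      H.N c < M → H.N ρ < M → k ≠ 0 → H.N k < M → a * b - c = ρ * k →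
      A.O (lr F c - (lr F a + lr F b)) (lr F ρ + lr F k - (lr F a + lr F b)) = 0) :
    ∀ m ≤ M, ∀ u ∈ Vm H F m, ∀ v ∈ Vm H F m, A.O u v = 0 := by
  intro m
  induction m with
  | zero =>
    intro _ u hu v _
    refine lin_closure (A.O.flip v) _ ?_ u hu
    rintro x ⟨a, _, h, _⟩
    exact absurd h (Nat.not_lt_zero _)
  | succ m ih =>
    intro hm
    have ih := ih (by omega)
    -- first step
    have s1 : ∀ ρ ∈ H.P, Irreducible ρ → H.N ρ = m → ∀ v ∈ Vm H F m, A.O v (lr F ρ) = 0 := by
      intro ρ hρ hi hN v hv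
      obtain ⟨K, _, _, L, rfl⟩ := exists_loc H hρ hi
      refine hom_step L A (by rwa [hN]) ?_ v (by rwa [hN])
      intro a b c k ha hb hc la lb lc hk lk e
      exact hS a b c L.p k ha hb hc hρ (by omega) (by omega) (by omega) (by omega) hk
        (by omega) e
    -- second step
    have s2 : ∀ ρ ∈ H.P, ∀ ρ' ∈ H.P, Irreducible ρ → Irreducible ρ' → H.N ρ = m → H.N ρ' = m →
        A.O (lr F ρ') (lr F ρ) = 0 := by
      intro ρ hρ ρ' hρ' hi hi' hN hN'
      by_cases hd : ρ ∣ ρ'
      · have e := hom_assoc H (A.O.flip (lr F ρ)) (H.ne_zero hρ)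
          (hi.associated_of_dvd hi' hd)
        simp only [AddMonoidHom.flip_apply] at e
        rw [e]
        exact A.alt _
      obtain ⟨r, hr, lr', k, hk⟩ := H.rep ρ hρ ρ' hd
      have hk0 : k ≠ 0 := by
        rintro rfl
        rw [mul_zero, sub_eq_zero] at hk
        rw [← hk] at lr'
        omega
      have h1 : 1 < m := by
        obtain ⟨K, _, _, L, rfl⟩ := exists_loc H hρ hi
        have := L.one_lt
        omega
      have hk1 : H.N k ≤ 1 := by
        have h2 := H.N_sub ρ' r hρ' hr
        rw [hk, H.N_mul, hN, hN'] at h2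
        have h3 : max m (H.N r) = m := max_eq_left (by omega)
        rw [h3] at h2
        by_contra hcon
        have : m * 2 ≤ m * H.N k := Nat.mul_le_mul_left _ (by omega)
        omega
      have h := hS ρ' 1 r ρ k hρ' H.one_mem hr hρ (by omega) (by rw [H.N_one]; omega) (by omega)
        (by omega) hk0 (by omega) (by rw [mul_one]; exact hk)
      have mr := lr_mem (F := F) H (H.ne_zero hr) (show H.N r < m by omega)
      have mk := lr_mem (F := F) H hk0 (show H.N k < m by omega)
      have e1 := s1 ρ hρ hi hN _ mr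
      have e2 := s1 ρ' hρ' hi' hN' _ mr
      have e3 := ih _ mr _ mk
      have e4 := s1 ρ' hρ' hi' hN' _ mk
      have e5 := A.swap (lr F ρ') (lr F k)
      rw [e4, neg_zero] at e5
      have e6 := A.alt (lr F ρ')
      rw [lr_one, add_zero] at h
      simp only [map_add, map_sub, AddMonoidHom.sub_apply] at h
      linear_combination (norm := module) -h + e1 - e2 + e3 - e5 + e6
    -- conclusion
    refine bil_closure A.O _ _ ?_
    rintro _ ⟨a, ha, la, rfl⟩ _ ⟨b, hb, lb, rfl⟩
    have ta := trichotomy H (F := F) ha (m := m) (by omega)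
    have tb := trichotomy H (F := F) hb (m := m) (by omega)
    rcases ta with ta | ta | ⟨ia, na⟩
    · exact hom_unit H (A.O.flip (lr F b)) ta
    · rcases tb with tb | tb | ⟨ib, nb⟩
      · exact hom_unit H (A.O (lr F a)) tb
      · exact ih _ ta _ tb
      · obtain ⟨b', hb', hbb, hf⟩ := pos_assoc (F := F) (Q := Q) H hb
        rw [← hf]
        refine s1 b' hb' ?_ ?_ _ ta
        · rcases hbb with rfl | rfl
          · exact ib
          · exact irr_neg ib
        · rcases hbb with rfl | rfl
          · exact nb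
          · rw [H.N_neg]; exact nb
    · obtain ⟨a', ha', haa, hfa⟩ := pos_assoc (F := F) (Q := Q) H ha
      have hia : Irreducible a' := by
        rcases haa with rfl | rfl
        · exact ia
        · exact irr_neg ia
      have hna : H.N a' = m := by
        rcases haa with rfl | rfl
        · exact na
        · rw [H.N_neg]; exact na
      have e0 := hfa (A.O.flip (lr F b))
      simp only [AddMonoidHom.flip_apply] at e0
      rw [← e0]
      rcases tb with tb | tb | ⟨ib, nb⟩
      · exact hom_unit H (A.O (lr F a')) tb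
      · rw [A.swap, s1 a' ha' hia hna _ tb, neg_zero]
      · obtain ⟨b', hb', hbb, hf⟩ := pos_assoc (F := F) (Q := Q) H hb
        rw [← hf]
        refine s2 b' hb' a' ha' ?_ hia ?_ hna
        · rcases hbb with rfl | rfl
          · exact ib
          · exact irr_neg ib
        · rcases hbb with rfl | rfl
          · exact nb
          · rw [H.N_neg]; exact nb

end

end Helper11.Gon
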